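import Mathlib

set_option autoImplicit false

/-!
# Inner dihedral angles of ball-polyhedra do not determine the face angles

For reals `a, b > 0`, `h, k ≥ 3/5` with `a² + h² = b² + k² = 1` and `h k = 12/25` let
`C(a,h,b,k) = {0, (a,0,h), (0,b,k), (-a,0,h), (0,-b,k)}`.
The intersection of the unit balls with these centres is a standard ball-polyhedron with the face
lattice of a quadrilateral pyramid (its apex is the origin, where four edges meet; the base lies on
the sphere about the origin).  Consecutive lateral centres are at squared distance `26/25` and all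
lateral centres are at distance `1` from the origin, so the inner dihedral angles do not depend on
the parameters, while the face angles at the apex do.  We compare a rhombic example
(`a, h, b, k = 3/5, 4/5, 4/5, 3/5`) and the square example (`h = k = 2√3/5`).
-/

open Set Filter Topology
open scoped RealInnerProductSpace

namespace Pool.Agent.Results.MP_07b410_co.DihedralNotEnough

/-- Euclidean three-space. -/
abbrev E3 := EuclideanSpace ℝ (Fin 3)

/-- The intersection of the closed unit balls centred at the points of `C`. -/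
def body (C : Set E3) : Set E3 := {x | ∀ c ∈ C, dist x c ≤ 1}

/-- The centres of the generating spheres through `x`. -/
def spheresAt (C : Set E3) (x : E3) : Set E3 := {c | c ∈ C ∧ dist x c = 1}

/-- `C` is the set of centres of an irredundant generating family of a ball-polyhedron. -/
structure IsBallPolyhedron (C : Set E3) : Prop where
  finite : C.Finite
  nonempty : C.Nonempty
  interior_nonempty : (interior (body C)).Nonempty
  irredundant : ∀ c ∈ C, body (C \ {c}) ≠ body C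

/-- Vertices: boundary points lying on at least three generating spheres. -/
def IsVertex (C : Set E3) (x : E3) : Prop :=
  x ∈ frontier (body C) ∧ 3 ≤ (spheresAt C x).ncard

/-- The boundary points lying on exactly two generating spheres. -/
def edgePoints (C : Set E3) : Set E3 :=
  {x | x ∈ frontier (body C) ∧ (spheresAt C x).ncard = 2}

/-- Edges: closures of the connected components of `edgePoints C`. -/
def IsEdge (C : Set E3) (e : Set E3) : Prop :=
  ∃ x ∈ edgePoints C, e = closure (connectedComponentIn (edgePoints C) x)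

/-- Faces: intersections of the body with the generating spheres. -/
def IsFace (C : Set E3) (F : Set E3) : Prop :=
  ∃ c ∈ C, F = body C ∩ Metric.sphere c 1

/-- The vertices (as one-point sets), edges and faces together with `∅` and the body. -/
def faceFamily (C : Set E3) : Set (Set E3) :=
  {F | F = ∅ ∨ F = body C ∨ (∃ v, IsVertex C v ∧ F = {v}) ∨ IsEdge C F ∨ IsFace C F}

/-- The face family is a lattice under inclusion. -/
def IsStandard (C : Set E3) : Prop :=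
  ∀ F G : faceFamily C, (∃ S, IsLUB {F, G} S) ∧ ∃ I, IsGLB {F, G} I

/-- `t` is the inner dihedral angle of the edge `e` of the ball-polyhedron with centres `C`,
measured at a point `p` of the relative interior of `e`: the supporting half-spaces at `p` of the
two balls with centres `c`, `c'` have outer normals `p - c`, `p - c'`. -/
def HasDihedralAngle (C : Set E3) (e : Set E3) (t : ℝ) : Prop :=
  ∃ p ∈ edgePoints C, e = closure (connectedComponentIn (edgePoints C) p) ∧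
    ∃ c ∈ spheresAt C p, ∃ c' ∈ spheresAt C p, c ≠ c' ∧
      t = Real.pi - InnerProductGeometry.angle (p - c) (p - c')

/-- The unit vector `t` spans the tangent half-line of the set `e` at its point `v`. -/
def IsTangentDirection (e : Set E3) (v t : E3) : Prop :=
  v ∈ closure (e \ {v}) ∧ Tendsto (fun x => ‖x - v‖⁻¹ • (x - v)) (𝓝[e \ {v}] v) (𝓝 t)

/-- `θ` is the face angle of the face `F` at the vertex `v`. -/
def HasFaceAngle (C : Set E3) (v : E3) (F : Set E3) (θ : ℝ) : Prop :=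
  IsVertex C v ∧ IsFace C F ∧ v ∈ F ∧ ∃ e e' : Set E3, ∃ t t' : E3,
    IsEdge C e ∧ IsEdge C e' ∧ e ≠ e' ∧ e ⊆ F ∧ e' ⊆ F ∧ v ∈ e ∧ v ∈ e' ∧
    IsTangentDirection e v t ∧ IsTangentDirection e' v t' ∧
    θ = InnerProductGeometry.angle t t'

/-! ### Parameters -/

/-- Parameters of the family of pyramids. -/
structure Par where
  a : ℝ
  h : ℝ
  b : ℝ
  k : ℝ
  ha : 0 < a
  hb : 0 < b
  hah : a ^ 2 + h ^ 2 = 1
  hbk : b ^ 2 + k ^ 2 = 1
  hhk : h * k = 12 / 25
  hh : 3 / 5 ≤ h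
  hk : 3 / 5 ≤ k

/-- Swap the two pairs of parameters. -/
def Par.swap (p : Par) : Par :=
  ⟨p.b, p.k, p.a, p.h, p.hb, p.ha, p.hbk, p.hah, by rw [mul_comm]; exact p.hhk, p.hk, p.hh⟩

lemma Par.h_le (p : Par) : p.h ≤ 4 / 5 := by
  have h1 := p.hhk
  have h2 := p.hh
  have h3 := p.hk
  nlinarith

lemma Par.k_le (p : Par) : p.k ≤ 4 / 5 := p.swap.h_le

lemma Par.a_ge (p : Par) : 3 / 5 ≤ p.a := by
  have h1 := p.hah
  have h2 := p.hh
  have h3 := p.h_le
  have h4 := p.ha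
  by_contra hc
  push Not at hc
  nlinarith

lemma Par.a_le (p : Par) : p.a ≤ 4 / 5 := by
  have h1 := p.hah
  have h2 := p.hh
  have h3 := p.h_le
  have h4 := p.ha
  by_contra hc
  push Not at hc
  nlinarith

lemma Par.b_ge (p : Par) : 3 / 5 ≤ p.b := p.swap.a_ge
lemma Par.b_le (p : Par) : p.b ≤ 4 / 5 := p.swap.a_le

/-- The denominator in the parametrisation of the lateral edges. -/
noncomputable def DD (p : Par) (s : ℝ) : ℝ :=
  ((2 * p.h - s) / (2 * p.a)) ^ 2 + ((2 * p.k - s) / (2 * p.b)) ^ 2 + 1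

lemma DD_swap (p : Par) (s : ℝ) : DD p.swap s = DD p s := by
  simp only [DD, Par.swap]; ring

lemma DD_pos (p : Par) (s : ℝ) : 0 < DD p s := by
  unfold DD; positivity

lemma DD_anti (p : Par) {s t : ℝ} (hst : s ≤ t) (h1 : t ≤ 2 * p.h) (h2 : t ≤ 2 * p.k) :
    DD p t ≤ DD p s := by
  have ha := p.ha
  have hb := p.hb
  unfold DD
  have e1 : (2 * p.h - t) / (2 * p.a) ≤ (2 * p.h - s) / (2 * p.a) := by gcongr
  have e2 : (2 * p.k - t) / (2 * p.b) ≤ (2 * p.k - s) / (2 * p.b) := by gcongr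
  have e3 : 0 ≤ (2 * p.h - t) / (2 * p.a) := div_nonneg (by linarith) (by linarith)
  have e4 : 0 ≤ (2 * p.k - t) / (2 * p.b) := div_nonneg (by linarith) (by linarith)
  gcongr

/-- The end parameter of the lateral edges. -/
structure Good (p : Par) (r : ℝ) : Prop where
  pos : 0 < r
  lt : r < 6 / 5
  eq : r ^ 2 = DD p r

lemma Good.swap {p : Par} {r : ℝ} (g : Good p r) : Good p.swap r :=
  ⟨g.pos, g.lt, by rw [DD_swap]; exact g.eq⟩

lemma Good.lt_h {p : Par} {r : ℝ} (g : Good p r) : r < 2 * p.h := by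
  have := g.lt; have := p.hh; linarith

lemma Good.lt_k {p : Par} {r : ℝ} (g : Good p r) : r < 2 * p.k := by
  have := g.lt; have := p.hk; linarith

lemma exists_good (p : Par) : ∃ r, Good p r := by
  have hc : ContinuousOn (fun s : ℝ => s ^ 2 - DD p s) (Icc 0 (6 / 5)) := by
    unfold DD
    fun_prop
  have h0 : (fun s : ℝ => s ^ 2 - DD p s) 0 < 0 := by
    have := DD_pos p 0
    simp only
    nlinarith
  have h1 : 0 < (fun s : ℝ => s ^ 2 - DD p s) (6 / 5) := by
    simp only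
    unfold DD
    have ha := p.a_ge
    have hb := p.b_ge
    have e1 : (2 * p.h - 6 / 5) / (2 * p.a) ≤ 1 / 3 := by
      rw [div_le_iff₀ (by linarith)]
      have := p.h_le
      linarith
    have e2 : (2 * p.k - 6 / 5) / (2 * p.b) ≤ 1 / 3 := by
      rw [div_le_iff₀ (by linarith)]
      have := p.k_le
      linarith
    have e3 : 0 ≤ (2 * p.h - 6 / 5) / (2 * p.a) :=
      div_nonneg (by have := p.hh; linarith) (by linarith)
    have e4 : 0 ≤ (2 * p.k - 6 / 5) / (2 * p.b) :=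
      div_nonneg (by have := p.hk; linarith) (by linarith)
    nlinarith
  have := intermediate_value_Ioo (by norm_num : (0 : ℝ) ≤ 6 / 5) hc
  obtain ⟨r, hr, hr'⟩ := this ⟨h0, h1⟩
  refine ⟨r, hr.1, hr.2, ?_⟩
  simp only at hr'
  linarith

/-- The end parameter of the lateral edges. -/
noncomputable def rr (p : Par) : ℝ := (exists_good p).choose

lemma rr_good (p : Par) : Good p (rr p) := (exists_good p).choose_spec



/-! ### Scalar lemmas -/

/-- Membership in the body in coordinates. -/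
structure InK (p : Par) (X Y Z : ℝ) : Prop where
  n : X ^ 2 + Y ^ 2 + Z ^ 2 ≤ 1
  x1 : X ^ 2 + Y ^ 2 + Z ^ 2 ≤ 2 * (p.a * X + p.h * Z)
  x2 : X ^ 2 + Y ^ 2 + Z ^ 2 ≤ 2 * (-p.a * X + p.h * Z)
  y1 : X ^ 2 + Y ^ 2 + Z ^ 2 ≤ 2 * (p.b * Y + p.k * Z)
  y2 : X ^ 2 + Y ^ 2 + Z ^ 2 ≤ 2 * (-p.b * Y + p.k * Z)

lemma InK.swap {p : Par} {X Y Z : ℝ} (H : InK p X Y Z) : InK p.swap Y X Z := by
  obtain ⟨h1, h2, h3, h4, h5⟩ := H
  refine ⟨by linarith, ?_, ?_, ?_, ?_⟩
  · show Y ^ 2 + X ^ 2 + Z ^ 2 ≤ 2 * (p.b * Y + p.k * Z)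
    linarith
  · show Y ^ 2 + X ^ 2 + Z ^ 2 ≤ 2 * (-p.b * Y + p.k * Z)
    linarith
  · show Y ^ 2 + X ^ 2 + Z ^ 2 ≤ 2 * (p.a * X + p.h * Z)
    linarith
  · show Y ^ 2 + X ^ 2 + Z ^ 2 ≤ 2 * (-p.a * X + p.h * Z)
    linarith

/-- A sign. -/
def Sg (e : ℝ) : Prop := e = 1 ∨ e = -1

lemma Sg.sq {e : ℝ} (h : Sg e) : e * e = 1 := by
  rcases h with h | h <;> rw [h] <;> norm_num

lemma Sg.neg {e : ℝ} (h : Sg e) : Sg (-e) := by
  rcases h with h | h
  · right; rw [h]
  · left; rw [h]; norm_num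

lemma InK.x {p : Par} {X Y Z : ℝ} (H : InK p X Y Z) {e : ℝ} (he : Sg e) :
    X ^ 2 + Y ^ 2 + Z ^ 2 ≤ 2 * (e * p.a * X + p.h * Z) := by
  rcases he with he | he
  · rw [he, one_mul]; exact H.x1
  · rw [he, neg_one_mul]; exact H.x2

lemma InK.y {p : Par} {X Y Z : ℝ} (H : InK p X Y Z) {e : ℝ} (he : Sg e) :
    X ^ 2 + Y ^ 2 + Z ^ 2 ≤ 2 * (e * p.b * Y + p.k * Z) := by
  rcases he with he | he
  · rw [he, one_mul]; exact H.y1
  · rw [he, neg_one_mul]; exact H.y2

lemma InK.Z_nonneg {p : Par} {X Y Z : ℝ} (H : InK p X Y Z) : 0 ≤ Z := by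
  have h1 := H.x1
  have h2 := H.x2
  have h3 := p.hh
  by_contra hc
  push Not at hc
  nlinarith [sq_nonneg X, sq_nonneg Y, sq_nonneg Z]

lemma InK.eq_zero_of_Z {p : Par} {X Y Z : ℝ} (H : InK p X Y Z) (hZ : Z = 0) :
    X = 0 ∧ Y = 0 := by
  have h1 := H.x1
  have h2 := H.x2
  subst hZ
  have h3 : X ^ 2 + Y ^ 2 ≤ 0 := by nlinarith
  constructor
  · nlinarith [sq_nonneg X, sq_nonneg Y]
  · nlinarith [sq_nonneg X, sq_nonneg Y]

/-- The two opposite lateral spheres meet the body only in the apex. -/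
lemma InK.opp {p : Par} {X Y Z : ℝ} (H : InK p X Y Z)
    (h1 : X ^ 2 + Y ^ 2 + Z ^ 2 = 2 * (p.a * X + p.h * Z))
    (h2 : X ^ 2 + Y ^ 2 + Z ^ 2 = 2 * (-p.a * X + p.h * Z)) : X = 0 ∧ Y = 0 ∧ Z = 0 := by
  have hX : X = 0 := by
    have : p.a * X = 0 := by linarith
    rcases mul_eq_zero.1 this with h | h
    · exact absurd h p.ha.ne'
    · exact h
  subst hX
  by_cases hZ : Z = 0
  · exact ⟨rfl, (H.eq_zero_of_Z hZ).2, hZ⟩
  exfalso
  have hZ0 : 0 < Z := lt_of_le_of_ne H.Z_nonneg (Ne.symm hZ)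
  have hn := H.n
  have hy1 := H.y1
  have hy2 := H.y2
  have hh := p.hh
  have hk := p.k_le
  have hb := p.b_ge
  -- `b |Y| ≤ (k - h) Z`
  have e1 : p.b * Y ≤ (p.k - p.h) * Z := by nlinarith
  have e2 : -(p.b * Y) ≤ (p.k - p.h) * Z := by nlinarith
  have e3 : (p.b * Y) ^ 2 ≤ ((p.k - p.h) * Z) ^ 2 := by
    apply sq_le_sq'
    · linarith
    · exact e1
  have hkh : 0 ≤ p.k - p.h := by
    by_contra hc
    push Not at hc
    nlinarith
  have e4 : (p.k - p.h) ^ 2 ≤ 1 / 25 := by nlinarith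
  have e5 : Y ^ 2 ≤ (1 / 9) * Z ^ 2 := by
    have a1 : ((p.k - p.h) * Z) ^ 2 ≤ (1 / 25) * Z ^ 2 := by
      rw [mul_pow]; nlinarith [sq_nonneg Z]
    have a2 : (9 / 25) * Y ^ 2 ≤ (p.b * Y) ^ 2 := by
      rw [mul_pow]
      have : 9 / 25 ≤ p.b ^ 2 := by nlinarith
      exact mul_le_mul_of_nonneg_right this (sq_nonneg Y)
    nlinarith
  -- `Y ^ 2 + Z ^ 2 = 2 h Z ≤ 1`
  have e6 : Y ^ 2 + Z ^ 2 = 2 * p.h * Z := by nlinarith
  have e7 : 2 * p.h * Z ≤ 1 := by nlinarith
  have e8 : 2 * p.h * Z ≤ (10 / 9) * Z ^ 2 := by nlinarith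
  have e9 : 2 * p.h ≤ (10 / 9) * Z := by nlinarith
  nlinarith

/-- First coordinate on the lateral edge. -/
noncomputable def mX (p : Par) (s : ℝ) : ℝ := (2 * p.h - s) / (2 * p.a)
/-- Second coordinate on the lateral edge. -/
noncomputable def mY (p : Par) (s : ℝ) : ℝ := (2 * p.k - s) / (2 * p.b)

lemma DD_eq (p : Par) (s : ℝ) : DD p s = mX p s ^ 2 + mY p s ^ 2 + 1 := rfl

lemma mX_mul (p : Par) (s : ℝ) : p.a * mX p s = p.h - s / 2 := by
  have := p.ha.ne'
  unfold mX; field_simp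

lemma mY_mul (p : Par) (s : ℝ) : p.b * mY p s = p.k - s / 2 := by
  have := p.hb.ne'
  unfold mY; field_simp

lemma mX_swap (p : Par) (s : ℝ) : mX p.swap s = mY p s := rfl
lemma mY_swap (p : Par) (s : ℝ) : mY p.swap s = mX p s := rfl

/-- Sign conditions on a lateral sphere. -/
lemma InK.sX {p : Par} {X Y Z : ℝ} (H : InK p X Y Z) {e : ℝ} (he : Sg e)
    (hx : X ^ 2 + Y ^ 2 + Z ^ 2 = 2 * (e * p.a * X + p.h * Z)) : e * X ≤ 0 := by
  have h1 := H.x he.neg
  have h2 := p.ha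
  by_contra hc
  push Not at hc
  have := mul_pos h2 hc
  nlinarith

lemma InK.sY {p : Par} {X Y Z : ℝ} (H : InK p X Y Z) {e : ℝ} (he : Sg e)
    (hx : X ^ 2 + Y ^ 2 + Z ^ 2 = 2 * (e * p.b * Y + p.k * Z)) : e * Y ≤ 0 := by
  have h1 := H.y he.neg
  have h2 := p.hb
  by_contra hc
  push Not at hc
  have := mul_pos h2 hc
  nlinarith

/-- Points on two adjacent lateral spheres. -/
lemma InK.lateral {p : Par} {r : ℝ} (g : Good p r) {X Y Z : ℝ} (H : InK p X Y Z) {e d : ℝ}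
    (he : Sg e) (hd : Sg d)
    (hx : X ^ 2 + Y ^ 2 + Z ^ 2 = 2 * (e * p.a * X + p.h * Z))
    (hy : X ^ 2 + Y ^ 2 + Z ^ 2 = 2 * (d * p.b * Y + p.k * Z)) :
    ∃ s, 0 ≤ s ∧ s ≤ r ∧ X = -(s / DD p s) * e * mX p s ∧ Y = -(s / DD p s) * d * mY p s ∧
      Z = s / DD p s ∧ X ^ 2 + Y ^ 2 + Z ^ 2 = s ^ 2 / DD p s ∧
      (X ^ 2 + Y ^ 2 + Z ^ 2 = 1 → s = r) := by
  have hZ0 := H.Z_nonneg
  by_cases hZ : Z = 0
  · obtain ⟨hX, hY⟩ := H.eq_zero_of_Z hZ
    subst hZ hX hY
    refine ⟨0, le_rfl, g.pos.le, by simp, by simp, by simp, by simp, ?_⟩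
    intro h; norm_num at h
  have hZ1 : 0 < Z := lt_of_le_of_ne hZ0 (Ne.symm hZ)
  obtain ⟨s, hs⟩ : ∃ s, s = (X ^ 2 + Y ^ 2 + Z ^ 2) / Z := ⟨_, rfl⟩
  have hN : X ^ 2 + Y ^ 2 + Z ^ 2 = s * Z := by rw [hs]; field_simp
  have hs0 : 0 < s := by rw [hs]; positivity
  have ha := p.ha
  have hb := p.hb
  have sx := H.sX he hx
  have sy := H.sY hd hy
  have hee := he.sq
  have hdd := hd.sq
  have hX : X = -Z * e * mX p s := by
    have e1 : p.a * (e * X) = p.a * (-Z * mX p s) := by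
      have : p.a * (-Z * mX p s) = -Z * (p.a * mX p s) := by ring
      rw [this, mX_mul]
      linarith
    have e2 : e * X = -Z * mX p s := mul_left_cancel₀ ha.ne' e1
    calc X = e * (e * X) := by rw [← mul_assoc, hee, one_mul]
      _ = _ := by rw [e2]; ring
  have hY : Y = -Z * d * mY p s := by
    have e1 : p.b * (d * Y) = p.b * (-Z * mY p s) := by
      have : p.b * (-Z * mY p s) = -Z * (p.b * mY p s) := by ring
      rw [this, mY_mul]
      linarith
    have e2 : d * Y = -Z * mY p s := mul_left_cancel₀ hb.ne' e1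
    calc Y = d * (d * Y) := by rw [← mul_assoc, hdd, one_mul]
      _ = _ := by rw [e2]; ring
  have hD := DD_pos p s
  have hsZ : s = Z * DD p s := by
    have e1 : s * Z = Z ^ 2 * DD p s := by
      rw [← hN, DD_eq]
      have x2 : X ^ 2 = Z ^ 2 * mX p s ^ 2 := by
        rw [hX]; calc _ = Z ^ 2 * (e * e) * mX p s ^ 2 := by ring
          _ = _ := by rw [hee]; ring
      have y2 : Y ^ 2 = Z ^ 2 * mY p s ^ 2 := by
        rw [hY]; calc _ = Z ^ 2 * (d * d) * mY p s ^ 2 := by ring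
          _ = _ := by rw [hdd]; ring
      rw [x2, y2]; ring
    have e2 : Z * s = Z * (Z * DD p s) := by linarith
    exact mul_left_cancel₀ hZ1.ne' e2
  have hZs : Z = s / DD p s := by
    rw [eq_div_iff hD.ne']; exact hsZ.symm
  have hsh : s ≤ 2 * p.h := by
    have : p.a * (e * X) ≤ 0 := mul_nonpos_of_nonneg_of_nonpos ha.le sx
    have e1 : s * Z ≤ 2 * p.h * Z := by nlinarith
    exact le_of_mul_le_mul_right e1 hZ1
  have hsk : s ≤ 2 * p.k := by
    have : p.b * (d * Y) ≤ 0 := mul_nonpos_of_nonneg_of_nonpos hb.le sy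
    have e1 : s * Z ≤ 2 * p.k * Z := by nlinarith
    exact le_of_mul_le_mul_right e1 hZ1
  have hNs : X ^ 2 + Y ^ 2 + Z ^ 2 = s ^ 2 / DD p s := by
    rw [hN, hZs]; ring
  have hsr : s ≤ r := by
    by_contra hc
    push Not at hc
    have h1 : DD p s ≤ DD p r := DD_anti p hc.le hsh hsk
    have h2 : r ^ 2 < s ^ 2 := by have := g.pos; nlinarith
    have h3 : DD p s < s ^ 2 := by rw [g.eq] at h2; linarith
    have h4 : 1 < s ^ 2 / DD p s := by rw [lt_div_iff₀ hD]; linarith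
    have := H.n
    linarith
  refine ⟨s, hs0.le, hsr, ?_, ?_, hZs, hNs, ?_⟩
  · rw [← hZs]; exact hX
  · rw [← hZs]; exact hY
  · intro h1
    by_contra hc
    have hlt : s < r := lt_of_le_of_ne hsr hc
    have h2 : DD p r ≤ DD p s := DD_anti p hsr g.lt_h.le g.lt_k.le
    have h3 : s ^ 2 < r ^ 2 := by nlinarith
    rw [hNs, div_eq_one_iff_eq hD.ne'] at h1
    rw [g.eq] at h3
    linarith

/-- The lateral curve stays in the body; strict inequalities. -/
lemma lateral_mem {p : Par} {r : ℝ} (g : Good p r) {e d : ℝ}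
    (he : Sg e) (hd : Sg d) {s : ℝ} (hs0 : 0 < s) (hs : s ≤ r) {X Y Z : ℝ}
    (hX : X = -(s / DD p s) * e * mX p s) (hY : Y = -(s / DD p s) * d * mY p s)
    (hZ : Z = s / DD p s) :
    X ^ 2 + Y ^ 2 + Z ^ 2 = s ^ 2 / DD p s ∧
    (s < r → X ^ 2 + Y ^ 2 + Z ^ 2 < 1) ∧ (s = r → X ^ 2 + Y ^ 2 + Z ^ 2 = 1) ∧
    X ^ 2 + Y ^ 2 + Z ^ 2 = 2 * (e * p.a * X + p.h * Z) ∧
    X ^ 2 + Y ^ 2 + Z ^ 2 = 2 * (d * p.b * Y + p.k * Z) ∧
    X ^ 2 + Y ^ 2 + Z ^ 2 < 2 * (-e * p.a * X + p.h * Z) ∧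
    X ^ 2 + Y ^ 2 + Z ^ 2 < 2 * (-d * p.b * Y + p.k * Z) := by
  have hD := DD_pos p s
  have hee := he.sq
  have hdd := hd.sq
  have hZ0 : 0 < Z := by rw [hZ]; positivity
  rw [← hZ] at hX hY
  have hsZ : s = Z * DD p s := by rw [hZ]; field_simp
  have hN : X ^ 2 + Y ^ 2 + Z ^ 2 = s * Z := by
    have x2 : X ^ 2 = Z ^ 2 * mX p s ^ 2 := by
      rw [hX]; calc _ = Z ^ 2 * (e * e) * mX p s ^ 2 := by ring
        _ = _ := by rw [hee]; ring
    have y2 : Y ^ 2 = Z ^ 2 * mY p s ^ 2 := by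
      rw [hY]; calc _ = Z ^ 2 * (d * d) * mY p s ^ 2 := by ring
        _ = _ := by rw [hdd]; ring
    rw [x2, y2]
    have : s * Z = Z ^ 2 * (mX p s ^ 2 + mY p s ^ 2 + 1) := by
      rw [← DD_eq]; nth_rewrite 1 [hsZ]; ring
    rw [this]; ring
  have hNs : X ^ 2 + Y ^ 2 + Z ^ 2 = s ^ 2 / DD p s := by
    rw [hN, hZ]; ring
  have hax : e * p.a * X = -Z * (p.h - s / 2) := by
    rw [hX]
    calc _ = -Z * (e * e) * (p.a * mX p s) := by ring
      _ = _ := by rw [hee, mX_mul]; ring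
  have hby : d * p.b * Y = -Z * (p.k - s / 2) := by
    rw [hY]
    calc _ = -Z * (d * d) * (p.b * mY p s) := by ring
      _ = _ := by rw [hdd, mY_mul]; ring
  have h1 := g.lt_h
  have h2 := g.lt_k
  refine ⟨hNs, ?_, ?_, ?_, ?_, ?_, ?_⟩
  · intro hlt
    rw [hNs, div_lt_one hD]
    have h2 : DD p r ≤ DD p s := DD_anti p hs g.lt_h.le g.lt_k.le
    have h3 : s ^ 2 < r ^ 2 := by nlinarith
    rw [g.eq] at h3
    linarith
  · intro heq
    rw [hNs, heq, g.eq, div_self (DD_pos p r).ne']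
  · rw [hax, hN]; ring
  · rw [hby, hN]; ring
  · have : -e * p.a * X = Z * (p.h - s / 2) := by
      calc _ = -(e * p.a * X) := by ring
        _ = _ := by rw [hax]; ring
    rw [this, hN]
    nlinarith
  · have : -d * p.b * Y = Z * (p.k - s / 2) := by
      calc _ = -(d * p.b * Y) := by ring
        _ = _ := by rw [hby]; ring
    rw [this, hN]
    nlinarith

/-! ### The base vertices -/

noncomputable def be (p : Par) (r : ℝ) : ℝ := mX p r / r
noncomputable def ga (p : Par) (r : ℝ) : ℝ := mY p r / r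

lemma be_swap (p : Par) (r : ℝ) : be p.swap r = ga p r := rfl
lemma ga_swap (p : Par) (r : ℝ) : ga p.swap r = be p r := rfl

lemma be_pos {p : Par} {r : ℝ} (g : Good p r) : 0 < be p r := by
  have := g.lt_h
  have := p.ha
  unfold be mX
  exact div_pos (div_pos (by linarith) (by linarith)) g.pos

lemma ga_pos {p : Par} {r : ℝ} (g : Good p r) : 0 < ga p r := be_pos g.swap

lemma r_div {p : Par} {r : ℝ} (g : Good p r) : r / DD p r = r⁻¹ := by
  rw [← g.eq]
  have := g.pos.ne'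
  field_simp

lemma be_eq {p : Par} {r : ℝ} (g : Good p r) : 2 * (-p.a * be p r + p.h * r⁻¹) = 1 := by
  have h1 := g.pos.ne'
  have : -p.a * be p r = -(p.a * mX p r) / r := by unfold be; ring
  rw [this, mX_mul]
  field_simp
  ring

lemma ga_eq {p : Par} {r : ℝ} (g : Good p r) : 2 * (-p.b * ga p r + p.k * r⁻¹) = 1 :=
  be_eq g.swap

lemma norm_one {p : Par} {r : ℝ} (g : Good p r) : be p r ^ 2 + ga p r ^ 2 + r⁻¹ ^ 2 = 1 := by
  have h1 := g.pos.ne'
  have h2 := g.eq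
  unfold be ga
  rw [DD_eq] at h2
  field_simp
  linarith

lemma InK.base_vertex {p : Par} {r : ℝ} (g : Good p r) {X Y Z : ℝ} (H : InK p X Y Z) {e d : ℝ}
    (he : Sg e) (hd : Sg d) (hn : X ^ 2 + Y ^ 2 + Z ^ 2 = 1)
    (hx : X ^ 2 + Y ^ 2 + Z ^ 2 = 2 * (e * p.a * X + p.h * Z))
    (hy : X ^ 2 + Y ^ 2 + Z ^ 2 = 2 * (d * p.b * Y + p.k * Z)) :
    X = -e * be p r ∧ Y = -d * ga p r ∧ Z = r⁻¹ := by
  obtain ⟨s, -, -, h1, h2, h3, -, h5⟩ := H.lateral g he hd hx hy
  have := h5 hn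
  subst this
  rw [r_div g] at h1 h2 h3
  refine ⟨?_, ?_, h3⟩
  · rw [h1]; unfold be; ring
  · rw [h2]; unfold ga; ring

/-! ### Base edges on the spheres `0` and `X`-type -/

noncomputable def w1 (p : Par) (r : ℝ) : ℝ := p.a * r⁻¹ + p.h * be p r

lemma h_pos (p : Par) : 0 < p.h := by have := p.hh; linarith

lemma w1_pos {p : Par} {r : ℝ} (g : Good p r) : 0 < w1 p r := by
  have h1 := be_pos g
  have h2 := g.pos
  have h3 := p.ha
  have h4 := h_pos p
  unfold w1
  positivity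

lemma w1_z {p : Par} {r : ℝ} (g : Good p r) : r⁻¹ = p.h / 2 + p.a * w1 p r := by
  have h1 := be_eq g
  have h2 := p.hah
  unfold w1
  linear_combination (p.h / 2) * h1 - r⁻¹ * h2

lemma w1_x {p : Par} {r : ℝ} (g : Good p r) : be p r = -(p.a / 2) + p.h * w1 p r := by
  have h1 := be_eq g
  have h2 := p.hah
  unfold w1
  linear_combination (-(p.a / 2)) * h1 - be p r * h2

lemma w1_sq {p : Par} {r : ℝ} (g : Good p r) : w1 p r ^ 2 = 3 / 4 - ga p r ^ 2 := by
  have h1 := norm_one g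
  have h2 := be_eq g
  have h3 := p.hah
  unfold w1
  have h4 : (-p.a * be p r + p.h * r⁻¹) ^ 2 = 1 / 4 := by
    have : -p.a * be p r + p.h * r⁻¹ = 1 / 2 := by linarith
    rw [this]; norm_num
  have h5 : (p.a * r⁻¹ + p.h * be p r) ^ 2 + (-p.a * be p r + p.h * r⁻¹) ^ 2
      = (p.a ^ 2 + p.h ^ 2) * (be p r ^ 2 + r⁻¹ ^ 2) := by ring
  rw [h3] at h5
  linarith

/-- Points of the body on the sphere `0` and a lateral `X`-type sphere. -/
lemma InK.baseX {p : Par} {r : ℝ} (g : Good p r) {X Y Z : ℝ} (H : InK p X Y Z) {e : ℝ}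
    (he : Sg e) (hn : X ^ 2 + Y ^ 2 + Z ^ 2 = 1)
    (hx : X ^ 2 + Y ^ 2 + Z ^ 2 = 2 * (e * p.a * X + p.h * Z)) :
    -ga p r ≤ Y ∧ Y ≤ ga p r ∧ X = e * (p.a / 2 - p.h * √(3 / 4 - Y ^ 2)) ∧
      Z = p.h / 2 + p.a * √(3 / 4 - Y ^ 2) := by
  have hah := p.hah
  have ha := p.ha
  have hb := p.hb
  have hh := h_pos p
  have hZ := H.Z_nonneg
  have sx := H.sX he hx
  have hee := he.sq
  obtain ⟨w, hw⟩ : ∃ w, w = p.a * Z - p.h * (e * X) := ⟨_, rfl⟩
  have hw0 : 0 ≤ w := by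
    rw [hw]
    have := mul_nonneg ha.le hZ
    have := mul_nonpos_of_nonneg_of_nonpos hh.le sx
    linarith
  have hl : p.a * (e * X) + p.h * Z = 1 / 2 := by linarith
  have hZw : Z = p.h / 2 + p.a * w := by
    rw [hw]
    linear_combination p.h * hl - Z * hah
  have hXw : e * X = p.a / 2 - p.h * w := by
    rw [hw]
    linear_combination p.a * hl - e * X * hah
  have hX2 : (e * X) ^ 2 = X ^ 2 := by rw [mul_pow, pow_two e, hee, one_mul]
  have hw2 : w ^ 2 = 3 / 4 - Y ^ 2 := by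
    have h5 : (p.a * Z - p.h * (e * X)) ^ 2 + (p.a * (e * X) + p.h * Z) ^ 2
      = (p.a ^ 2 + p.h ^ 2) * ((e * X) ^ 2 + Z ^ 2) := by ring
    rw [hah, hl, ← hw, hX2] at h5
    linarith
  have hsq : √(3 / 4 - Y ^ 2) = w := by rw [← hw2]; exact Real.sqrt_sq hw0
  have hXf : X = e * (p.a / 2 - p.h * w) := by
    rw [← hXw, ← mul_assoc, hee, one_mul]
  have key : ∀ d : ℝ, Sg d → d * Y ≤ ga p r := by
    intro d hd
    by_contra hc
    push Not at hc
    have hg := ga_pos g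
    have hY2 : ga p r ^ 2 < Y ^ 2 := by
      have : (d * Y) ^ 2 = Y ^ 2 := by rw [mul_pow, pow_two d, hd.sq, one_mul]
      rw [← this]
      exact pow_lt_pow_left₀ hc hg.le (by norm_num)
    have hww : w < w1 p r := by
      have h1 := w1_sq g
      exact lt_of_pow_lt_pow_left₀ 2 (w1_pos g).le (by linarith)
    have h1 := H.y hd.neg
    rw [hn] at h1
    have h2 := ga_eq g
    have h3 := w1_z g
    have hZlt : Z < r⁻¹ := by
      rw [h3, hZw]
      have := mul_lt_mul_of_pos_left hww ha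
      linarith
    have hk : 0 < p.k := h_pos p.swap
    have e1 : p.k * Z < p.k * r⁻¹ := mul_lt_mul_of_pos_left hZlt hk
    have e2 : p.b * ga p r < p.b * (d * Y) := mul_lt_mul_of_pos_left hc hb
    linarith
  refine ⟨?_, ?_, ?_, ?_⟩
  · have := key (-1) (Or.inr rfl); linarith
  · have := key 1 (Or.inl rfl); linarith
  · rw [hsq]; exact hXf
  · rw [hsq]; exact hZw

/-- The base curve lies in the body, with strict inequalities. -/
lemma baseX_mem {p : Par} {r : ℝ} (g : Good p r) {e : ℝ} (he : Sg e) {X Y Z : ℝ}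
    (h1 : -ga p r < Y) (h2 : Y < ga p r) (hX : X = e * (p.a / 2 - p.h * √(3 / 4 - Y ^ 2)))
    (hZ : Z = p.h / 2 + p.a * √(3 / 4 - Y ^ 2)) :
    X ^ 2 + Y ^ 2 + Z ^ 2 = 1 ∧
    X ^ 2 + Y ^ 2 + Z ^ 2 = 2 * (e * p.a * X + p.h * Z) ∧
    X ^ 2 + Y ^ 2 + Z ^ 2 < 2 * (-e * p.a * X + p.h * Z) ∧
    X ^ 2 + Y ^ 2 + Z ^ 2 < 2 * (p.b * Y + p.k * Z) ∧
    X ^ 2 + Y ^ 2 + Z ^ 2 < 2 * (-p.b * Y + p.k * Z) := by
  have hah := p.hah
  have ha := p.ha
  have hb := p.hb
  have hh := h_pos p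
  have hk : 0 < p.k := h_pos p.swap
  have hee := he.sq
  have hg := ga_pos g
  have hw1 := w1_sq g
  have hw1p := w1_pos g
  have hY2 : Y ^ 2 < ga p r ^ 2 := sq_lt_sq' h1 h2
  have hpos : 0 ≤ 3 / 4 - Y ^ 2 := by
    have := sq_nonneg (w1 p r)
    linarith
  obtain ⟨w, hw⟩ : ∃ w, w = √(3 / 4 - Y ^ 2) := ⟨_, rfl⟩
  have hw2 : w ^ 2 = 3 / 4 - Y ^ 2 := by rw [hw]; exact Real.sq_sqrt hpos
  have hw0 : 0 ≤ w := by rw [hw]; exact Real.sqrt_nonneg _
  rw [← hw] at hX hZ
  have hww : w1 p r < w := lt_of_pow_lt_pow_left₀ 2 hw0 (by linarith)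
  have hX2 : X ^ 2 = (p.a / 2 - p.h * w) ^ 2 := by
    rw [hX, mul_pow, pow_two e, hee, one_mul]
  have hN : X ^ 2 + Y ^ 2 + Z ^ 2 = 1 := by
    rw [hX2, hZ]
    have : (p.a / 2 - p.h * w) ^ 2 + (p.h / 2 + p.a * w) ^ 2
      = (p.a ^ 2 + p.h ^ 2) * (1 / 4 + w ^ 2) := by ring
    rw [hah] at this
    linarith
  have heX : e * X = p.a / 2 - p.h * w := by rw [hX, ← mul_assoc, hee, one_mul]
  have hbe := be_pos g
  have hx := w1_x g
  have hz := w1_z g
  have hge := ga_eq g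
  have hneg : p.a / 2 - p.h * w < 0 := by
    have := mul_lt_mul_of_pos_left hww hh
    linarith
  have hZgt : r⁻¹ < Z := by
    rw [hz, hZ]
    have := mul_lt_mul_of_pos_left hww ha
    linarith
  have hkZ : p.k * r⁻¹ < p.k * Z := mul_lt_mul_of_pos_left hZgt hk
  have hlin : p.a * (e * X) + p.h * Z = 1 / 2 := by
    rw [heX, hZ]
    linear_combination (1 / 2) * hah
  refine ⟨hN, ?_, ?_, ?_, ?_⟩
  · rw [hN]; linarith
  · rw [hN]
    have : p.a * (e * X) < 0 := by rw [heX]; exact mul_neg_of_pos_of_neg ha hneg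
    linarith
  · rw [hN]
    have : p.b * (-ga p r) < p.b * Y := mul_lt_mul_of_pos_left h1 hb
    linarith
  · rw [hN]
    have : p.b * Y < p.b * ga p r := mul_lt_mul_of_pos_left h2 hb
    linarith



/-! ### The ball-polyhedra -/

/-- The centres. -/
noncomputable def ctr (p : Par) : Fin 5 → E3 :=
  ![!₂[0, 0, 0], !₂[p.a, 0, p.h], !₂[0, p.b, p.k], !₂[-p.a, 0, p.h], !₂[0, -p.b, p.k]]

/-- The set of centres. -/
def CC (p : Par) : Set E3 := Set.range (ctr p)

/-- Squared norm. -/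
def N (x : E3) : ℝ := x 0 ^ 2 + x 1 ^ 2 + x 2 ^ 2

/-- `q i x = 1 - dist x (ctr i) ^ 2`. -/
noncomputable def q (p : Par) : Fin 5 → E3 → ℝ :=
  ![fun x => 1 - N x,
    fun x => 2 * (p.a * x 0 + p.h * x 2) - N x,
    fun x => 2 * (p.b * x 1 + p.k * x 2) - N x,
    fun x => 2 * (-p.a * x 0 + p.h * x 2) - N x,
    fun x => 2 * (-p.b * x 1 + p.k * x 2) - N x]

lemma q_zero (p : Par) (x : E3) : q p 0 x = 1 - N x := rfl
lemma q_one (p : Par) (x : E3) : q p 1 x = 2 * (p.a * x 0 + p.h * x 2) - N x := rfl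
lemma q_two (p : Par) (x : E3) : q p 2 x = 2 * (p.b * x 1 + p.k * x 2) - N x := rfl
lemma q_three (p : Par) (x : E3) : q p 3 x = 2 * (-p.a * x 0 + p.h * x 2) - N x := rfl
lemma q_four (p : Par) (x : E3) : q p 4 x = 2 * (-p.b * x 1 + p.k * x 2) - N x := rfl

lemma dist_sq (x y : E3) :
    dist x y ^ 2 = (x 0 - y 0) ^ 2 + (x 1 - y 1) ^ 2 + (x 2 - y 2) ^ 2 := by
  rw [EuclideanSpace.dist_eq, Real.sq_sqrt (by positivity)]
  simp [Fin.sum_univ_three, Real.dist_eq, sq_abs]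

lemma q_eq (p : Par) (i : Fin 5) (x : E3) : q p i x = 1 - dist x (ctr p i) ^ 2 := by
  have h1 := p.hah
  have h2 := p.hbk
  rw [dist_sq]
  fin_cases i
  · simp [q_zero, ctr, N]
  · simp [q_one, ctr, N]
    linear_combination h1
  · simp [q_two, ctr, N]
    linear_combination h2
  · simp [q_three, ctr, N]
    linear_combination h1
  · simp [q_four, ctr, N]
    linear_combination h2

lemma q_nonneg_iff (p : Par) (i : Fin 5) (x : E3) : 0 ≤ q p i x ↔ dist x (ctr p i) ≤ 1 := by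
  rw [q_eq, sub_nonneg]
  constructor
  · intro h
    exact (sq_le_one_iff₀ dist_nonneg).1 h
  · intro h
    exact (sq_le_one_iff₀ dist_nonneg).2 h

lemma q_zero_iff (p : Par) (i : Fin 5) (x : E3) : q p i x = 0 ↔ dist x (ctr p i) = 1 := by
  rw [q_eq, sub_eq_zero, eq_comm]
  constructor
  · intro h
    exact (pow_eq_one_iff_of_nonneg dist_nonneg two_ne_zero).1 h
  · intro h
    rw [h]; norm_num

lemma q_cont (p : Par) (i : Fin 5) : Continuous (q p i) := by
  have : q p i = fun x => 1 - dist x (ctr p i) ^ 2 := funext fun x => q_eq p i x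
  rw [this]
  fun_prop

/-- The body. -/
def KK (p : Par) : Set E3 := body (CC p)

lemma mem_KK (p : Par) (x : E3) : x ∈ KK p ↔ ∀ i, 0 ≤ q p i x := by
  unfold KK body CC
  simp only [Set.mem_ofPred_eq, Set.forall_mem_range, q_nonneg_iff]

lemma KK_closed (p : Par) : IsClosed (KK p) := by
  have : KK p = ⋂ i, {x | 0 ≤ q p i x} := by
    ext x; simp [mem_KK]
  rw [this]
  exact isClosed_iInter fun i => isClosed_le continuous_const (q_cont p i)

lemma ctr_ne (p : Par) (i j : Fin 5) (hij : i ≠ j) : ctr p i ≠ ctr p j := by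
  have ha := p.ha
  have hb := p.hb
  have hh : 0 < p.h := h_pos p
  have hk : 0 < p.k := h_pos p.swap
  intro h
  have h0 : ctr p i 0 = ctr p j 0 := by rw [h]
  have h1 : ctr p i 1 = ctr p j 1 := by rw [h]
  have h2 : ctr p i 2 = ctr p j 2 := by rw [h]
  fin_cases i <;> fin_cases j <;> simp [ctr] at h0 h1 h2 hij <;> linarith

lemma ctr_inj (p : Par) : Function.Injective (ctr p) := by
  intro i j h
  by_contra hc
  exact ctr_ne p i j hc h

lemma mem_int (p : Par) (x : E3) : x ∈ interior (KK p) ↔ ∀ i, 0 < q p i x := by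
  constructor
  · intro h i
    have h1 : x ∈ interior (Metric.closedBall (ctr p i) 1) := by
      refine interior_mono ?_ h
      intro y hy
      rw [mem_KK] at hy
      rw [Metric.mem_closedBall]
      exact (q_nonneg_iff p i y).1 (hy i)
    rw [interior_closedBall _ one_ne_zero, Metric.mem_ball] at h1
    have h2 : 0 ≤ q p i x := (q_nonneg_iff p i x).2 h1.le
    have h3 : q p i x ≠ 0 := fun h => by
      rw [q_zero_iff] at h
      linarith
    exact lt_of_le_of_ne h2 (Ne.symm h3)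
  · intro h
    have h1 : IsOpen (⋂ i, {y | 0 < q p i y}) :=
      isOpen_iInter_of_finite fun i => isOpen_lt continuous_const (q_cont p i)
    rw [mem_interior]
    refine ⟨_, ?_, h1, ?_⟩
    · intro y hy
      rw [Set.mem_iInter] at hy
      rw [mem_KK]
      intro i
      exact (hy i).le
    · rw [Set.mem_iInter]
      exact h

/-- The spheres through `x`. -/
noncomputable def zs (p : Par) (x : E3) : Finset (Fin 5) :=
  open Classical in Finset.univ.filter (fun i => q p i x = 0)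

lemma mem_zs (p : Par) (x : E3) (i : Fin 5) : i ∈ zs p x ↔ q p i x = 0 := by
  simp [zs]

lemma mem_frontier (p : Par) (x : E3) : x ∈ frontier (KK p) ↔ x ∈ KK p ∧ (zs p x).Nonempty := by
  rw [frontier, (KK_closed p).closure_eq, Set.mem_sdiff, mem_int]
  constructor
  · rintro ⟨h1, h2⟩
    refine ⟨h1, ?_⟩
    push Not at h2
    obtain ⟨i, hi⟩ := h2
    exact ⟨i, (mem_zs p x i).2 (le_antisymm hi ((mem_KK p x).1 h1 i))⟩
  · rintro ⟨h1, i, hi⟩
    refine ⟨h1, fun h => ?_⟩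
    rw [mem_zs] at hi
    have := h i
    linarith

lemma mem_spheresAt (p : Par) (x : E3) (i : Fin 5) :
    ctr p i ∈ spheresAt (CC p) x ↔ q p i x = 0 := by
  unfold spheresAt CC
  rw [q_zero_iff]
  simp

lemma ncard_spheresAt (p : Par) (x : E3) : (spheresAt (CC p) x).ncard = (zs p x).card := by
  have : spheresAt (CC p) x = ctr p '' (zs p x : Set (Fin 5)) := by
    ext c
    constructor
    · rintro ⟨⟨i, rfl⟩, hi⟩
      exact ⟨i, by rw [Finset.mem_coe, mem_zs, q_zero_iff]; exact hi, rfl⟩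
    · rintro ⟨i, hi, rfl⟩
      rw [Finset.mem_coe, mem_zs] at hi
      exact (mem_spheresAt p x i).2 hi
  rw [this, Set.ncard_image_of_injective _ (ctr_inj p), Set.ncard_coe_finset]

lemma isVertex_iff (p : Par) (x : E3) : IsVertex (CC p) x ↔ x ∈ KK p ∧ 3 ≤ (zs p x).card := by
  unfold IsVertex
  rw [ncard_spheresAt]
  change x ∈ frontier (KK p) ∧ _ ↔ _
  rw [mem_frontier]
  constructor
  · rintro ⟨⟨h1, -⟩, h2⟩; exact ⟨h1, h2⟩
  · rintro ⟨h1, h2⟩
    exact ⟨⟨h1, Finset.card_pos.1 (by omega)⟩, h2⟩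

lemma mem_edgePoints (p : Par) (x : E3) :
    x ∈ edgePoints (CC p) ↔ x ∈ KK p ∧ (zs p x).card = 2 := by
  unfold edgePoints
  rw [Set.mem_ofPred_eq, ncard_spheresAt]
  change x ∈ frontier (KK p) ∧ _ ↔ _
  rw [mem_frontier]
  constructor
  · rintro ⟨⟨h1, -⟩, h2⟩; exact ⟨h1, h2⟩
  · rintro ⟨h1, h2⟩
    exact ⟨⟨h1, Finset.card_pos.1 (by omega)⟩, h2⟩

lemma isFace_iff (p : Par) (F : Set E3) :
    IsFace (CC p) F ↔ ∃ i, F = {x | x ∈ KK p ∧ q p i x = 0} := by
  unfold IsFace CC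
  simp only [Set.exists_range_iff]
  constructor
  · rintro ⟨i, rfl⟩
    refine ⟨i, ?_⟩
    ext x
    rw [Set.mem_inter_iff, Metric.mem_sphere, Set.mem_ofPred_eq, q_zero_iff]
    rfl
  · rintro ⟨i, rfl⟩
    refine ⟨i, ?_⟩
    ext x
    rw [Set.mem_inter_iff, Metric.mem_sphere, Set.mem_ofPred_eq, q_zero_iff]
    rfl

lemma inK {p : Par} {x : E3} (h : x ∈ KK p) : InK p (x 0) (x 1) (x 2) := by
  rw [mem_KK] at h
  have h0 := h 0
  have h1 := h 1
  have h2 := h 2
  have h3 := h 3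
  have h4 := h 4
  rw [q_zero] at h0
  rw [q_one] at h1
  rw [q_two] at h2
  rw [q_three] at h3
  rw [q_four] at h4
  unfold N at *
  constructor <;> linarith

lemma ext3 {x y : E3} (h0 : x 0 = y 0) (h1 : x 1 = y 1) (h2 : x 2 = y 2) : x = y := by
  ext i
  fin_cases i
  · exact h0
  · exact h1
  · exact h2

lemma opp13 {p : Par} {x : E3} (h : x ∈ KK p) (h1 : q p 1 x = 0) (h3 : q p 3 x = 0) : x = 0 := by
  rw [q_one] at h1
  rw [q_three] at h3
  unfold N at *
  obtain ⟨a, b, c⟩ := (inK h).opp (by linarith) (by linarith)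
  exact ext3 a b c

lemma opp24 {p : Par} {x : E3} (h : x ∈ KK p) (h1 : q p 2 x = 0) (h3 : q p 4 x = 0) : x = 0 := by
  rw [q_two] at h1
  rw [q_four] at h3
  unfold N at *
  have := (inK h).swap.opp
  simp only [Par.swap] at this
  obtain ⟨a, b, c⟩ := this (by linarith) (by linarith)
  exact ext3 b a c

/-! ### Labels -/

/-- The vertex labels of the face on the sphere `i`. -/
def Vf : Fin 5 → Finset (Fin 5) :=
  ![{1, 2, 3, 4}, {0, 1, 4}, {0, 1, 2}, {0, 2, 3}, {0, 3, 4}]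

/-- The closure operator of the face lattice. -/
def cl (A : Finset (Fin 5)) : Finset (Fin 5) :=
  Finset.univ.filter (fun j => ∀ i, A ⊆ Vf i → j ∈ Vf i)

lemma mem_cl (A : Finset (Fin 5)) (j : Fin 5) : j ∈ cl A ↔ ∀ i, A ⊆ Vf i → j ∈ Vf i := by
  simp [cl]

lemma subset_cl (A : Finset (Fin 5)) : A ⊆ cl A := by
  intro j hj
  rw [mem_cl]
  intro i hi
  exact hi hj

lemma cl_min {A B : Finset (Fin 5)} (h : A ⊆ B) (hB : cl B = B) : cl A ⊆ B := by
  intro j hj
  rw [← hB, mem_cl]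
  rw [mem_cl] at hj
  intro i hi
  exact hj i (h.trans hi)

lemma cl_cl (A : Finset (Fin 5)) : cl (cl A) = cl A := by
  apply Finset.Subset.antisymm _ (subset_cl _)
  intro j hj
  rw [mem_cl] at hj ⊢
  intro i hi
  refine hj i ?_
  intro k hk
  rw [mem_cl] at hk
  exact hk i hi

lemma cl_inter {A B : Finset (Fin 5)} (hA : cl A = A) (hB : cl B = B) : cl (A ∩ B) = A ∩ B := by
  apply Finset.Subset.antisymm _ (subset_cl _)
  apply Finset.subset_inter
  · exact cl_min Finset.inter_subset_left hA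
  · exact cl_min Finset.inter_subset_right hB

lemma closed_cases : ∀ A : Finset (Fin 5), cl A = A →
    A = ∅ ∨ A = Finset.univ ∨ (∃ j, A = {j}) ∨ A.card = 2 ∨ ∃ i, A = Vf i := by
  decide

lemma closed_vf : ∀ i : Fin 5, cl (Vf i) = Vf i := by decide
lemma closed_single : ∀ i : Fin 5, cl {i} = {i} := by decide
lemma closed_empty : cl ∅ = ∅ := by decide
lemma closed_univ : cl Finset.univ = Finset.univ := by decide
lemma vf_sub : ∀ i j : Fin 5, Vf i ⊆ Vf j → i = j := by decide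
lemma vf_univ : ∀ j : Fin 5, ¬ Finset.univ ⊆ Vf j := by decide

lemma edge_cases : ∀ A : Finset (Fin 5), cl A = A → A.card = 2 →
    A = {0, 1} ∨ A = {0, 2} ∨ A = {0, 3} ∨ A = {0, 4} ∨
    A = {1, 4} ∨ A = {1, 2} ∨ A = {2, 3} ∨ A = {3, 4} := by
  decide

lemma pair_cases : ∀ S : Finset (Fin 5), S.card = 2 → ¬ (1 ∈ S ∧ 3 ∈ S) → ¬ (2 ∈ S ∧ 4 ∈ S) →
    ∃ A, cl A = A ∧ A.card = 2 ∧ ∀ i, i ∈ S ↔ A ⊆ Vf i := by
  decide

lemma triple_cases : ∀ S : Finset (Fin 5), 3 ≤ S.card → ¬ (1 ∈ S ∧ 3 ∈ S) → ¬ (2 ∈ S ∧ 4 ∈ S) →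
    ∃ j, ∀ i, i ∈ S ↔ j ∈ Vf i := by
  decide

lemma edge_two : ∀ A : Finset (Fin 5), cl A = A → A.card = 2 →
    (Finset.univ.filter (fun i => A ⊆ Vf i)).card = 2 := by
  decide

/-! ### Vertices -/

/-- The vertices. -/
noncomputable def vx (p : Par) : Fin 5 → E3 :=
  ![!₂[0, 0, 0], !₂[-be p (rr p), -ga p (rr p), (rr p)⁻¹], !₂[be p (rr p), -ga p (rr p), (rr p)⁻¹],
    !₂[be p (rr p), ga p (rr p), (rr p)⁻¹], !₂[-be p (rr p), ga p (rr p), (rr p)⁻¹]]

lemma vx_zero (p : Par) : vx p 0 = 0 := by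
  apply ext3 <;> simp [vx]

lemma q_vx (p : Par) (i j : Fin 5) :
    (j ∈ Vf i → q p i (vx p j) = 0) ∧ (j ∉ Vf i → 0 < q p i (vx p j)) := by
  have g := rr_good p
  have h1 := norm_one g
  rw [inv_pow] at h1
  have h2 := be_eq g
  have h3 := ga_eq g
  have h4 := mul_pos p.ha (be_pos g)
  have h5 := mul_pos p.hb (ga_pos g)
  fin_cases i <;> fin_cases j <;>
    simp [q_zero, q_one, q_two, q_three, q_four, vx, N, Vf] <;> linarith

lemma q_vx_iff (p : Par) (i j : Fin 5) : q p i (vx p j) = 0 ↔ j ∈ Vf i := by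
  constructor
  · intro h
    by_contra hc
    have := (q_vx p i j).2 hc
    linarith
  · exact (q_vx p i j).1

lemma vx_mem (p : Par) (j : Fin 5) : vx p j ∈ KK p := by
  rw [mem_KK]
  intro i
  by_cases h : j ∈ Vf i
  · exact ((q_vx p i j).1 h).ge
  · exact ((q_vx p i j).2 h).le

/-- Uniqueness of vertices. -/
lemma vx_unique (p : Par) (j : Fin 5) {x : E3} (hx : x ∈ KK p)
    (h : ∀ i, j ∈ Vf i → q p i x = 0) : x = vx p j := by
  have g := rr_good p
  have hK := inK hx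
  fin_cases j
  · have h1 := h 1 (by decide)
    have h3 := h 3 (by decide)
    rw [opp13 hx h1 h3]
    exact (vx_zero p).symm
  · have h0 := h 0 (by decide)
    have h1 := h 1 (by decide)
    have h2 := h 2 (by decide)
    rw [q_zero] at h0
    rw [q_one] at h1
    rw [q_two] at h2
    unfold N at *
    obtain ⟨a, b, c⟩ := hK.base_vertex g (e := 1) (d := 1) (Or.inl rfl) (Or.inl rfl)
      (by linarith) (by linarith) (by linarith)
    apply ext3
    · rw [a]; simp [vx]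
    · rw [b]; simp [vx]
    · rw [c]; simp [vx]
  · have h0 := h 0 (by decide)
    have h1 := h 3 (by decide)
    have h2 := h 2 (by decide)
    rw [q_zero] at h0
    rw [q_three] at h1
    rw [q_two] at h2
    unfold N at *
    obtain ⟨a, b, c⟩ := hK.base_vertex g (e := -1) (d := 1) (Or.inr rfl) (Or.inl rfl)
      (by linarith) (by linarith) (by linarith)
    apply ext3
    · rw [a]; simp [vx]
    · rw [b]; simp [vx]
    · rw [c]; simp [vx]
  · have h0 := h 0 (by decide)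
    have h1 := h 3 (by decide)
    have h2 := h 4 (by decide)
    rw [q_zero] at h0
    rw [q_three] at h1
    rw [q_four] at h2
    unfold N at *
    obtain ⟨a, b, c⟩ := hK.base_vertex g (e := -1) (d := -1) (Or.inr rfl) (Or.inr rfl)
      (by linarith) (by linarith) (by linarith)
    apply ext3
    · rw [a]; simp [vx]
    · rw [b]; simp [vx]
    · rw [c]; simp [vx]
  · have h0 := h 0 (by decide)
    have h1 := h 1 (by decide)
    have h2 := h 4 (by decide)
    rw [q_zero] at h0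
    rw [q_one] at h1
    rw [q_four] at h2
    unfold N at *
    obtain ⟨a, b, c⟩ := hK.base_vertex g (e := 1) (d := -1) (Or.inl rfl) (Or.inr rfl)
      (by linarith) (by linarith) (by linarith)
    apply ext3
    · rw [a]; simp [vx]
    · rw [b]; simp [vx]
    · rw [c]; simp [vx]

lemma zs_zero (p : Par) (i : Fin 5) : q p i 0 = 0 ↔ i ≠ 0 := by
  rw [← vx_zero p, q_vx_iff]
  revert i; decide

lemma isVertex_iff' (p : Par) (x : E3) : IsVertex (CC p) x ↔ ∃ j, x = vx p j := by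
  rw [isVertex_iff]
  constructor
  · rintro ⟨h1, h2⟩
    by_cases h13 : 1 ∈ zs p x ∧ 3 ∈ zs p x
    · rw [mem_zs, mem_zs] at h13
      exact ⟨0, by rw [vx_zero]; exact opp13 h1 h13.1 h13.2⟩
    by_cases h24 : 2 ∈ zs p x ∧ 4 ∈ zs p x
    · rw [mem_zs, mem_zs] at h24
      exact ⟨0, by rw [vx_zero]; exact opp24 h1 h24.1 h24.2⟩
    obtain ⟨j, hj⟩ := triple_cases _ h2 h13 h24
    refine ⟨j, vx_unique p j h1 ?_⟩
    intro i hi
    exact (mem_zs p x i).1 ((hj i).2 hi)
  · rintro ⟨j, rfl⟩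
    refine ⟨vx_mem p j, ?_⟩
    have : zs p (vx p j) = Finset.univ.filter (fun i => j ∈ Vf i) := by
      ext i; rw [mem_zs, q_vx_iff]; simp
    rw [this]
    clear this
    revert j; decide

/-- The closed stratum with vertex labels `A`. -/
def RR (p : Par) (A : Finset (Fin 5)) : Set E3 := {x | x ∈ KK p ∧ ∀ i, A ⊆ Vf i → q p i x = 0}

/-- The open stratum with vertex labels `A`. -/
def EE (p : Par) (A : Finset (Fin 5)) : Set E3 := {x | x ∈ KK p ∧ ∀ i, q p i x = 0 ↔ A ⊆ Vf i}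

lemma EE_sub_RR (p : Par) (A : Finset (Fin 5)) : EE p A ⊆ RR p A :=
  fun _ hx => ⟨hx.1, fun i hi => (hx.2 i).2 hi⟩

lemma RR_closed (p : Par) (A : Finset (Fin 5)) : IsClosed (RR p A) := by
  have : RR p A = KK p ∩ ⋂ i, ⋂ (_ : A ⊆ Vf i), {x | q p i x = 0} := by
    ext x; simp [RR]
  rw [this]
  refine (KK_closed p).inter (isClosed_iInter fun i => isClosed_iInter fun _ => ?_)
  exact isClosed_eq (q_cont p i) continuous_const

lemma vx_mem_RR (p : Par) (A : Finset (Fin 5)) (j : Fin 5) : vx p j ∈ RR p A ↔ j ∈ cl A := by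
  rw [mem_cl]
  constructor
  · rintro ⟨-, h⟩ i hi
    exact (q_vx_iff p i j).1 (h i hi)
  · intro h
    exact ⟨vx_mem p j, fun i hi => (q_vx_iff p i j).2 (h i hi)⟩

lemma RR_subset (p : Par) {A B : Finset (Fin 5)} (hB : cl B = B) :
    RR p A ⊆ RR p B ↔ A ⊆ B := by
  constructor
  · intro h j hj
    rw [← hB, ← vx_mem_RR p]
    apply h
    rw [vx_mem_RR p]
    exact subset_cl A hj
  · rintro h x ⟨h1, h2⟩
    exact ⟨h1, fun i hi => h2 i (h.trans hi)⟩

lemma RR_inj (p : Par) {A B : Finset (Fin 5)} (hA : cl A = A) (hB : cl B = B)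
    (h : RR p A = RR p B) : A = B :=
  Finset.Subset.antisymm ((RR_subset p hB).1 h.subset) ((RR_subset p hA).1 h.superset)

lemma RR_empty (p : Par) : RR p ∅ = ∅ := by
  ext x
  simp only [Set.mem_empty_iff_false, iff_false]
  rintro ⟨h1, h2⟩
  have h3 := opp13 h1 (h2 1 (Finset.empty_subset _)) (h2 3 (Finset.empty_subset _))
  have h4 := h2 0 (Finset.empty_subset _)
  rw [h3, zs_zero] at h4
  exact h4 rfl

lemma RR_univ (p : Par) : RR p Finset.univ = KK p := by
  ext x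
  constructor
  · intro h; exact h.1
  · intro h
    exact ⟨h, fun i hi => absurd hi (vf_univ i)⟩

lemma RR_single (p : Par) (j : Fin 5) : RR p {j} = {vx p j} := by
  ext x
  rw [Set.mem_singleton_iff]
  constructor
  · rintro ⟨h1, h2⟩
    exact vx_unique p j h1 fun i hi => h2 i (Finset.singleton_subset_iff.2 hi)
  · rintro rfl
    rw [vx_mem_RR, closed_single]
    exact Finset.mem_singleton_self j

lemma RR_vf (p : Par) (i : Fin 5) : RR p (Vf i) = {x | x ∈ KK p ∧ q p i x = 0} := by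
  ext x
  constructor
  · rintro ⟨h1, h2⟩
    exact ⟨h1, h2 i (Finset.Subset.refl _)⟩
  · rintro ⟨h1, h2⟩
    refine ⟨h1, fun j hj => ?_⟩
    rw [← vf_sub i j hj]
    exact h2



/-! ### Edges are arcs -/

/-- The conclusions we want about each edge stratum. -/
structure Arc (p : Par) (A : Finset (Fin 5)) : Prop where
  nonempty : (EE p A).Nonempty
  preconn : IsPreconnected (EE p A)
  clos : closure (EE p A) = RR p A

lemma arc_of (p : Par) (A : Finset (Fin 5)) (g : ℝ → E3) (lo hi : ℝ) (hlt : lo < hi)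
    (hg : ContinuousOn g (Icc lo hi)) (h1 : ∀ t ∈ Ioo lo hi, g t ∈ EE p A)
    (h2 : ∀ x ∈ RR p A, ∃ t ∈ Icc lo hi, g t = x) : Arc p A := by
  have hsub : g '' Ioo lo hi ⊆ EE p A := by
    rintro _ ⟨t, ht, rfl⟩; exact h1 t ht
  have hRR : RR p A ⊆ closure (g '' Ioo lo hi) := by
    intro x hx
    obtain ⟨t, ht, rfl⟩ := h2 x hx
    have hcl : closure (Ioo lo hi) = Icc lo hi := closure_Ioo hlt.ne
    have := ContinuousOn.image_closure (f := g) (s := Ioo lo hi) (by rw [hcl]; exact hg)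
    apply this
    rw [hcl]
    exact ⟨t, ht, rfl⟩
  have hpre : IsPreconnected (g '' Ioo lo hi) :=
    isPreconnected_Ioo.image g (hg.mono Ioo_subset_Icc_self)
  refine ⟨?_, ?_, ?_⟩
  · obtain ⟨t, ht⟩ := exists_between hlt
    exact ⟨g t, h1 t ht⟩
  · exact hpre.subset_closure hsub ((EE_sub_RR p A).trans hRR)
  · apply Set.Subset.antisymm
    · exact closure_minimal (EE_sub_RR p A) (RR_closed p A)
    · exact hRR.trans (closure_mono hsub)

lemma mem_EE_of (p : Par) (A : Finset (Fin 5)) (x : E3)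
    (h0 : ∀ i, A ⊆ Vf i → q p i x = 0) (h1 : ∀ i, ¬ A ⊆ Vf i → 0 < q p i x) : x ∈ EE p A := by
  constructor
  · rw [mem_KK]
    intro i
    by_cases h : A ⊆ Vf i
    · exact (h0 i h).ge
    · exact (h1 i h).le
  · intro i
    constructor
    · intro h
      by_contra hc
      have := h1 i hc
      linarith
    · exact h0 i

/-- The lateral curve. -/
noncomputable def gL (p : Par) (e d s : ℝ) : E3 :=
  !₂[-(s / DD p s) * e * mX p s, -(s / DD p s) * d * mY p s, s / DD p s]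

lemma DD_cont (p : Par) : Continuous (DD p) := by
  unfold DD; fun_prop

lemma mX_cont (p : Par) : Continuous (mX p) := by
  unfold mX; fun_prop

lemma mY_cont (p : Par) : Continuous (mY p) := by
  unfold mY; fun_prop

lemma cont3 {f g h : ℝ → ℝ} {S : Set ℝ} (hf : ContinuousOn f S) (hg : ContinuousOn g S)
    (hh : ContinuousOn h S) : ContinuousOn (fun s => (!₂[f s, g s, h s] : E3)) S := by
  apply (PiLp.continuous_toLp 2 (fun _ : Fin 3 => ℝ)).comp_continuousOn
  rw [continuousOn_pi]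
  intro i
  fin_cases i
  · exact hf
  · exact hg
  · exact hh

lemma gL_cont (p : Par) (e d : ℝ) (S : Set ℝ) : ContinuousOn (gL p e d) S := by
  have h1 : Continuous fun s => s / DD p s :=
    continuous_id.div (DD_cont p) fun s => (DD_pos p s).ne'
  have h2 := mX_cont p
  have h3 := mY_cont p
  unfold gL
  apply cont3
  · exact (((h1.neg).mul continuous_const).mul h2).continuousOn
  · exact (((h1.neg).mul continuous_const).mul h3).continuousOn
  · exact h1.continuousOn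

lemma lateral_arc (p : Par) (A : Finset (Fin 5)) (e d : ℝ) (he : Sg e) (hd : Sg d)
    (i i' j j' : Fin 5)
    (hi : ∀ x, q p i x = 2 * (e * p.a * x 0 + p.h * x 2) - N x)
    (hi' : ∀ x, q p i' x = 2 * (-e * p.a * x 0 + p.h * x 2) - N x)
    (hj : ∀ x, q p j x = 2 * (d * p.b * x 1 + p.k * x 2) - N x)
    (hj' : ∀ x, q p j' x = 2 * (-d * p.b * x 1 + p.k * x 2) - N x)
    (hi0 : A ⊆ Vf i) (hj0 : A ⊆ Vf j) (hz : ∀ k, A ⊆ Vf k → k = i ∨ k = j)
    (hp : ∀ k, ¬ A ⊆ Vf k → k = 0 ∨ k = i' ∨ k = j') : Arc p A := by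
  have g := rr_good p
  refine arc_of p A (gL p e d) 0 (rr p) g.pos (gL_cont p e d _) ?_ ?_
  · intro s hs
    obtain ⟨-, h2, -, h4, h5, h6, h7⟩ := lateral_mem g he hd hs.1 hs.2.le
      (X := gL p e d s 0) (Y := gL p e d s 1) (Z := gL p e d s 2) rfl rfl rfl
    have h2 := h2 hs.2
    apply mem_EE_of
    · intro k hk
      rcases hz k hk with rfl | rfl
      · rw [hi]; unfold N; linarith
      · rw [hj]; unfold N; linarith
    · intro k hk
      rcases hp k hk with rfl | rfl | rfl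
      · rw [q_zero]; unfold N; linarith
      · rw [hi']; unfold N; linarith
      · rw [hj']; unfold N; linarith
  · rintro x ⟨hx, hx2⟩
    have e1 := hx2 i hi0
    have e2 := hx2 j hj0
    rw [hi] at e1
    rw [hj] at e2
    unfold N at e1 e2
    obtain ⟨s, h1, h2, h3, h4, h5, -, -⟩ := (inK hx).lateral g he hd (by linarith) (by linarith)
    refine ⟨s, ⟨h1, h2⟩, ?_⟩
    apply ext3
    · rw [h3]; rfl
    · rw [h4]; rfl
    · rw [h5]; rfl

/-- The base curve on an `X`-type sphere. -/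
noncomputable def gX (p : Par) (e t : ℝ) : E3 :=
  !₂[e * (p.a / 2 - p.h * √(3 / 4 - t ^ 2)), t, p.h / 2 + p.a * √(3 / 4 - t ^ 2)]

/-- The base curve on a `Y`-type sphere. -/
noncomputable def gY (p : Par) (e t : ℝ) : E3 :=
  !₂[t, e * (p.b / 2 - p.k * √(3 / 4 - t ^ 2)), p.k / 2 + p.b * √(3 / 4 - t ^ 2)]

lemma gX_cont (p : Par) (e : ℝ) (S : Set ℝ) : ContinuousOn (gX p e) S := by
  unfold gX
  apply cont3 <;> fun_prop

lemma gY_cont (p : Par) (e : ℝ) (S : Set ℝ) : ContinuousOn (gY p e) S := by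
  unfold gY
  apply cont3 <;> fun_prop

lemma baseX_arc (p : Par) (A : Finset (Fin 5)) (e : ℝ) (he : Sg e) (i i' : Fin 5)
    (hi : ∀ x, q p i x = 2 * (e * p.a * x 0 + p.h * x 2) - N x)
    (hi' : ∀ x, q p i' x = 2 * (-e * p.a * x 0 + p.h * x 2) - N x)
    (h0 : A ⊆ Vf 0) (hi0 : A ⊆ Vf i) (hz : ∀ k, A ⊆ Vf k → k = 0 ∨ k = i)
    (hp : ∀ k, ¬ A ⊆ Vf k → k = i' ∨ k = 2 ∨ k = 4) : Arc p A := by
  have g := rr_good p
  refine arc_of p A (gX p e) (-ga p (rr p)) (ga p (rr p)) (by have := ga_pos g; linarith)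
    (gX_cont p e _) ?_ ?_
  · intro t ht
    obtain ⟨h1, h2, h3, h4, h5⟩ := baseX_mem g he (X := gX p e t 0) (Y := gX p e t 1)
      (Z := gX p e t 2) ht.1 ht.2 rfl rfl
    apply mem_EE_of
    · intro k hk
      rcases hz k hk with rfl | rfl
      · rw [q_zero]; unfold N; linarith
      · rw [hi]; unfold N; linarith
    · intro k hk
      rcases hp k hk with rfl | rfl | rfl
      · rw [hi']; unfold N; linarith
      · rw [q_two]; unfold N; linarith
      · rw [q_four]; unfold N; linarith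
  · rintro x ⟨hx, hx2⟩
    have e1 := hx2 0 h0
    have e2 := hx2 i hi0
    rw [q_zero] at e1
    rw [hi] at e2
    unfold N at e1 e2
    obtain ⟨h1, h2, h3, h4⟩ := (inK hx).baseX g he (by linarith) (by linarith)
    refine ⟨x 1, ⟨h1, h2⟩, ?_⟩
    apply ext3
    · rw [h3]; rfl
    · rfl
    · rw [h4]; rfl

lemma baseY_arc (p : Par) (A : Finset (Fin 5)) (e : ℝ) (he : Sg e) (i i' : Fin 5)
    (hi : ∀ x, q p i x = 2 * (e * p.b * x 1 + p.k * x 2) - N x)
    (hi' : ∀ x, q p i' x = 2 * (-e * p.b * x 1 + p.k * x 2) - N x)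
    (h0 : A ⊆ Vf 0) (hi0 : A ⊆ Vf i) (hz : ∀ k, A ⊆ Vf k → k = 0 ∨ k = i)
    (hp : ∀ k, ¬ A ⊆ Vf k → k = i' ∨ k = 1 ∨ k = 3) : Arc p A := by
  have g := rr_good p
  refine arc_of p A (gY p e) (-be p (rr p)) (be p (rr p)) (by have := be_pos g; linarith)
    (gY_cont p e _) ?_ ?_
  · intro t ht
    obtain ⟨h1, h2, h3, h4, h5⟩ := baseX_mem g.swap he (X := gY p e t 1) (Y := gY p e t 0)
      (Z := gY p e t 2) ht.1 ht.2 rfl rfl
    simp only [Par.swap] at h2 h3 h4 h5
    apply mem_EE_of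
    · intro k hk
      rcases hz k hk with rfl | rfl
      · rw [q_zero]; unfold N; linarith
      · rw [hi]; unfold N; linarith
    · intro k hk
      rcases hp k hk with rfl | rfl | rfl
      · rw [hi']; unfold N; linarith
      · rw [q_one]; unfold N; linarith
      · rw [q_three]; unfold N; linarith
  · rintro x ⟨hx, hx2⟩
    have e1 := hx2 0 h0
    have e2 := hx2 i hi0
    rw [q_zero] at e1
    rw [hi] at e2
    unfold N at e1 e2
    obtain ⟨h1, h2, h3, h4⟩ := (inK hx).swap.baseX g.swap he (by linarith)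
      (by simp only [Par.swap]; linarith)
    refine ⟨x 0, ⟨h1, h2⟩, ?_⟩
    apply ext3
    · rfl
    · rw [h3]; rfl
    · rw [h4]; rfl

lemma arc_all (p : Par) (A : Finset (Fin 5)) (hA : cl A = A) (hc : A.card = 2) : Arc p A := by
  have s1 : Sg 1 := Or.inl rfl
  have s2 : Sg (-1) := Or.inr rfl
  rcases edge_cases A hA hc with rfl | rfl | rfl | rfl | rfl | rfl | rfl | rfl
  · exact lateral_arc p _ 1 1 s1 s1 1 3 2 4 (fun x => by rw [q_one]; ring)
      (fun x => by rw [q_three]; ring) (fun x => by rw [q_two]; ring) (fun x => by rw [q_four]; ring)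
      (by decide) (by decide) (by decide) (by decide)
  · exact lateral_arc p _ (-1) 1 s2 s1 3 1 2 4 (fun x => by rw [q_three]; ring)
      (fun x => by rw [q_one]; ring) (fun x => by rw [q_two]; ring) (fun x => by rw [q_four]; ring)
      (by decide) (by decide) (by decide) (by decide)
  · exact lateral_arc p _ (-1) (-1) s2 s2 3 1 4 2 (fun x => by rw [q_three]; ring)
      (fun x => by rw [q_one]; ring) (fun x => by rw [q_four]; ring)
      (fun x => by rw [q_two]; ring)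
      (by decide) (by decide) (by decide) (by decide)
  · exact lateral_arc p _ 1 (-1) s1 s2 1 3 4 2 (fun x => by rw [q_one]; ring)
      (fun x => by rw [q_three]; ring) (fun x => by rw [q_four]; ring)
      (fun x => by rw [q_two]; ring)
      (by decide) (by decide) (by decide) (by decide)
  · exact baseX_arc p _ 1 s1 1 3 (fun x => by rw [q_one]; ring) (fun x => by rw [q_three]; ring)
      (by decide) (by decide) (by decide) (by decide)
  · exact baseY_arc p _ 1 s1 2 4 (fun x => by rw [q_two]; ring) (fun x => by rw [q_four]; ring)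
      (by decide) (by decide) (by decide) (by decide)
  · exact baseX_arc p _ (-1) s2 3 1 (fun x => by rw [q_three]; ring)
      (fun x => by rw [q_one]; ring)
      (by decide) (by decide) (by decide) (by decide)
  · exact baseY_arc p _ (-1) s2 4 2 (fun x => by rw [q_four]; ring)
      (fun x => by rw [q_two]; ring)
      (by decide) (by decide) (by decide) (by decide)

/-! ### Components -/

lemma edgePoint_stratum {p : Par} {x : E3} (h : x ∈ edgePoints (CC p)) :
    ∃ A, cl A = A ∧ A.card = 2 ∧ x ∈ EE p A := by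
  rw [mem_edgePoints] at h
  obtain ⟨h1, h2⟩ := h
  have key : x ≠ 0 := by
    rintro rfl
    have : zs p 0 = {1, 2, 3, 4} := by
      ext i
      rw [mem_zs, zs_zero]
      revert i; decide
    rw [this] at h2
    revert h2; decide
  have h13 : ¬ (1 ∈ zs p x ∧ 3 ∈ zs p x) := by
    rw [mem_zs, mem_zs]
    rintro ⟨a, b⟩
    exact key (opp13 h1 a b)
  have h24 : ¬ (2 ∈ zs p x ∧ 4 ∈ zs p x) := by
    rw [mem_zs, mem_zs]
    rintro ⟨a, b⟩
    exact key (opp24 h1 a b)
  obtain ⟨A, hA, hc, hi⟩ := pair_cases _ h2 h13 h24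
  refine ⟨A, hA, hc, h1, fun i => ?_⟩
  rw [← hi i, mem_zs]

lemma EE_sub_edgePoints {p : Par} {A : Finset (Fin 5)} (hA : cl A = A) (hc : A.card = 2) :
    EE p A ⊆ edgePoints (CC p) := by
  intro x hx
  rw [mem_edgePoints]
  refine ⟨hx.1, ?_⟩
  have : zs p x = Finset.univ.filter (fun i => A ⊆ Vf i) := by
    ext i; rw [mem_zs, hx.2 i]; simp
  rw [this]
  exact edge_two A hA hc

lemma component {p : Par} {A : Finset (Fin 5)} (hA : cl A = A) (hc : A.card = 2) {x : E3}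
    (hx : x ∈ EE p A) : connectedComponentIn (edgePoints (CC p)) x = EE p A := by
  apply Set.Subset.antisymm
  · -- the component is contained in the stratum
    obtain ⟨T, hT⟩ : ∃ T, T = connectedComponentIn (edgePoints (CC p)) x := ⟨_, rfl⟩
    rw [← hT]
    have hTpre : IsPreconnected T := by rw [hT]; exact isPreconnected_connectedComponentIn
    have hTsub : T ⊆ edgePoints (CC p) := by rw [hT]; exact connectedComponentIn_subset _ _
    have hxT : x ∈ T := by
      rw [hT]; exact mem_connectedComponentIn (EE_sub_edgePoints hA hc hx)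
    let B : Set E3 := ⋃ B ∈ {B : Finset (Fin 5) | cl B = B ∧ B.card = 2 ∧ B ≠ A}, RR p B
    have hBcl : IsClosed B := by
      apply Set.Finite.isClosed_biUnion (Set.toFinite _)
      intro B _
      exact RR_closed p B
    have hdisj : ∀ y ∈ edgePoints (CC p), y ∈ RR p A → y ∉ B := by
      intro y hy hyA hyB
      simp only [B, Set.mem_iUnion, Set.mem_ofPred_eq] at hyB
      obtain ⟨B', ⟨hB1, hB2, hB3⟩, hyB⟩ := hyB
      rw [mem_edgePoints] at hy
      have e1 : Finset.univ.filter (fun i => A ⊆ Vf i) = zs p y := by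
        apply Finset.eq_of_subset_of_card_le
        · intro i hi
          rw [mem_zs]
          exact hyA.2 i (by simpa using hi)
        · rw [hy.2, edge_two A hA hc]
      have e2 : Finset.univ.filter (fun i => B' ⊆ Vf i) = zs p y := by
        apply Finset.eq_of_subset_of_card_le
        · intro i hi
          rw [mem_zs]
          exact hyB.2 i (by simpa using hi)
        · rw [hy.2, edge_two B' hB1 hB2]
      apply hB3
      have e3 : ∀ i, B' ⊆ Vf i ↔ A ⊆ Vf i := by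
        intro i
        have : i ∈ Finset.univ.filter (fun i => B' ⊆ Vf i) ↔
          i ∈ Finset.univ.filter (fun i => A ⊆ Vf i) := by rw [e1, e2]
        simpa using this
      rw [← hA, ← hB1]
      ext j
      rw [mem_cl, mem_cl]
      constructor
      · intro h i hi; exact h i ((e3 i).2 hi)
      · intro h i hi; exact h i ((e3 i).1 hi)
    have hcover : T ⊆ RR p A ∪ B := by
      intro y hy
      obtain ⟨A', hA', hc', hyE⟩ := edgePoint_stratum (hTsub hy)
      by_cases h : A' = A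
      · left; rw [← h]; exact EE_sub_RR p A' hyE
      · right
        simp only [B, Set.mem_iUnion, Set.mem_ofPred_eq]
        exact ⟨A', ⟨hA', hc', h⟩, EE_sub_RR p A' hyE⟩
    rw [isPreconnected_closed_iff] at hTpre
    have hTB : ¬ (T ∩ B).Nonempty := by
      intro hne
      obtain ⟨y, hy1, hy2, hy3⟩ := hTpre _ _ (RR_closed p A) hBcl hcover
        ⟨x, hxT, EE_sub_RR p A hx⟩ hne
      exact hdisj y (hTsub hy1) hy2 hy3
    intro y hy
    obtain ⟨A', hA', hc', hyE⟩ := edgePoint_stratum (hTsub hy)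
    by_cases h : A' = A
    · rw [← h]; exact hyE
    · exfalso
      apply hTB
      refine ⟨y, hy, ?_⟩
      simp only [B, Set.mem_iUnion, Set.mem_ofPred_eq]
      exact ⟨A', ⟨hA', hc', h⟩, EE_sub_RR p A' hyE⟩
  · exact (arc_all p A hA hc).preconn.subset_connectedComponentIn hx (EE_sub_edgePoints hA hc)

lemma isEdge_iff (p : Par) (e : Set E3) :
    IsEdge (CC p) e ↔ ∃ A, cl A = A ∧ A.card = 2 ∧ e = RR p A := by
  constructor
  · rintro ⟨x, hx, rfl⟩
    obtain ⟨A, hA, hc, hxE⟩ := edgePoint_stratum hx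
    refine ⟨A, hA, hc, ?_⟩
    rw [component hA hc hxE, (arc_all p A hA hc).clos]
  · rintro ⟨A, hA, hc, rfl⟩
    obtain ⟨x, hx⟩ := (arc_all p A hA hc).nonempty
    refine ⟨x, EE_sub_edgePoints hA hc hx, ?_⟩
    rw [component hA hc hx, (arc_all p A hA hc).clos]

lemma mem_faceFamily (p : Par) (F : Set E3) :
    F ∈ faceFamily (CC p) ↔ ∃ A, cl A = A ∧ F = RR p A := by
  constructor
  · rintro (rfl | rfl | ⟨v, hv, rfl⟩ | h | h)
    · exact ⟨∅, closed_empty, (RR_empty p).symm⟩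
    · exact ⟨Finset.univ, closed_univ, (RR_univ p).symm⟩
    · obtain ⟨j, rfl⟩ := (isVertex_iff' p v).1 hv
      exact ⟨{j}, closed_single j, (RR_single p j).symm⟩
    · obtain ⟨A, hA, -, rfl⟩ := (isEdge_iff p F).1 h
      exact ⟨A, hA, rfl⟩
    · obtain ⟨i, rfl⟩ := (isFace_iff p F).1 h
      exact ⟨Vf i, closed_vf i, (RR_vf p i).symm⟩
  · rintro ⟨A, hA, rfl⟩
    rcases closed_cases A hA with rfl | rfl | ⟨j, rfl⟩ | h | ⟨i, rfl⟩
    · left; exact RR_empty p
    · right; left; exact RR_univ p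
    · right; right; left
      exact ⟨vx p j, (isVertex_iff' p _).2 ⟨j, rfl⟩, RR_single p j⟩
    · right; right; right; left
      exact (isEdge_iff p _).2 ⟨A, hA, h, rfl⟩
    · right; right; right; right
      exact (isFace_iff p _).2 ⟨i, RR_vf p i⟩

/-! ### The face lattice -/

/-- The abstract face lattice of a quadrilateral pyramid. -/
abbrev LL := {A : Finset (Fin 5) // cl A = A}

lemma RR_mem (p : Par) (A : LL) : RR p A.1 ∈ faceFamily (CC p) :=
  (mem_faceFamily p _).2 ⟨A.1, A.2, rfl⟩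

/-- The labelling as an order isomorphism. -/
noncomputable def lab (p : Par) : LL ≃o faceFamily (CC p) :=
  (Equiv.ofBijective (fun A : LL => (⟨RR p A.1, RR_mem p A⟩ : faceFamily (CC p)))
    ⟨fun A B h => Subtype.ext (RR_inj p A.2 B.2 (congrArg Subtype.val h)), fun F => by
      obtain ⟨A, hA, h⟩ := (mem_faceFamily p F.1).1 F.2
      exact ⟨⟨A, hA⟩, Subtype.ext h.symm⟩⟩).toOrderIso
    (fun A B h => (RR_subset p B.2).2 h)
    (fun F G h => by
      obtain ⟨A, hA, hF⟩ := (mem_faceFamily p F.1).1 F.2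
      obtain ⟨B, hB, hG⟩ := (mem_faceFamily p G.1).1 G.2
      have e1 : F = (Equiv.ofBijective (fun A : LL => (⟨RR p A.1, RR_mem p A⟩ : faceFamily (CC p)))
        ⟨fun A B h => Subtype.ext (RR_inj p A.2 B.2 (congrArg Subtype.val h)), fun F => by
          obtain ⟨A, hA, h⟩ := (mem_faceFamily p F.1).1 F.2
          exact ⟨⟨A, hA⟩, Subtype.ext h.symm⟩⟩) ⟨A, hA⟩ := Subtype.ext hF
      have e2 : G = (Equiv.ofBijective (fun A : LL => (⟨RR p A.1, RR_mem p A⟩ : faceFamily (CC p)))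
        ⟨fun A B h => Subtype.ext (RR_inj p A.2 B.2 (congrArg Subtype.val h)), fun F => by
          obtain ⟨A, hA, h⟩ := (mem_faceFamily p F.1).1 F.2
          exact ⟨⟨A, hA⟩, Subtype.ext h.symm⟩⟩) ⟨B, hB⟩ := Subtype.ext hG
      rw [e1, e2, Equiv.symm_apply_apply, Equiv.symm_apply_apply]
      change A ⊆ B
      rw [← RR_subset p hB, ← hF, ← hG]
      exact h)

lemma lab_val (p : Par) (A : LL) : ((lab p A : faceFamily (CC p)) : Set E3) = RR p A.1 := rfl

lemma standard (p : Par) : IsStandard (CC p) := by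
  intro F G
  obtain ⟨A, hA, hF⟩ := (mem_faceFamily p F.1).1 F.2
  obtain ⟨B, hB, hG⟩ := (mem_faceFamily p G.1).1 G.2
  constructor
  · refine ⟨⟨RR p (cl (A ∪ B)), RR_mem p ⟨_, cl_cl _⟩⟩, ?_, ?_⟩
    · rintro H (rfl | rfl)
      · change H.1 ⊆ _
        rw [hF]
        exact (RR_subset p (cl_cl _)).2 (Finset.subset_union_left.trans (subset_cl _))
      · change H.1 ⊆ _
        rw [hG]
        exact (RR_subset p (cl_cl _)).2 (Finset.subset_union_right.trans (subset_cl _))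
    · intro H hH
      obtain ⟨D, hD, hHD⟩ := (mem_faceFamily p H.1).1 H.2
      have h1 : F.1 ⊆ H.1 := hH (by simp)
      have h2 : G.1 ⊆ H.1 := hH (by simp)
      change RR p (cl (A ∪ B)) ⊆ H.1
      rw [hF, hHD, RR_subset p hD] at h1
      rw [hG, hHD, RR_subset p hD] at h2
      rw [hHD, RR_subset p hD]
      exact cl_min (Finset.union_subset h1 h2) hD
  · refine ⟨⟨RR p (A ∩ B), RR_mem p ⟨_, cl_inter hA hB⟩⟩, ?_, ?_⟩
    · rintro H (rfl | rfl)
      · change _ ⊆ H.1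
        rw [hF]
        exact (RR_subset p hA).2 Finset.inter_subset_left
      · change _ ⊆ H.1
        rw [hG]
        exact (RR_subset p hB).2 Finset.inter_subset_right
    · intro H hH
      obtain ⟨D, hD, hHD⟩ := (mem_faceFamily p H.1).1 H.2
      have h1 : H.1 ⊆ F.1 := hH (by simp)
      have h2 : H.1 ⊆ G.1 := hH (by simp)
      change H.1 ⊆ RR p (A ∩ B)
      rw [hF, hHD, RR_subset p hA] at h1
      rw [hG, hHD, RR_subset p hB] at h2
      rw [hHD, RR_subset p (cl_inter hA hB)]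
      exact Finset.subset_inter h1 h2



/-! ### The family is irredundant -/

/-- Witnesses of irredundance. -/
noncomputable def wit : Fin 5 → E3 :=
  ![!₂[0, 0, 11 / 10], !₂[-(3 / 10), 0, 3 / 10], !₂[0, -(3 / 10), 3 / 10],
    !₂[3 / 10, 0, 3 / 10], !₂[0, 3 / 10, 3 / 10]]

lemma q_wit (p : Par) (i j : Fin 5) :
    (i = j → q p i (wit j) < 0) ∧ (i ≠ j → 0 ≤ q p i (wit j)) := by
  have h1 := p.hh
  have h2 := p.hk
  have h3 := p.h_le
  have h4 := p.k_le
  have h5 := p.a_ge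
  have h6 := p.b_ge
  fin_cases i <;> fin_cases j <;>
    simp [q_zero, q_one, q_two, q_three, q_four, wit, N] <;> linarith

lemma ballPolyhedron (p : Par) : IsBallPolyhedron (CC p) := by
  refine ⟨Set.finite_range _, Set.range_nonempty _, ?_, ?_⟩
  · refine ⟨!₂[0, 0, 1 / 2], ?_⟩
    change _ ∈ interior (KK p)
    rw [mem_int]
    have h1 := p.hh
    have h2 := p.hk
    intro i
    fin_cases i <;> simp [q_zero, q_one, q_two, q_three, q_four, N] <;> linarith
  · rintro c ⟨j, rfl⟩ h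
    have h1 : wit j ∈ body (CC p \ {ctr p j}) := by
      rintro _ ⟨⟨i, rfl⟩, hi⟩
      rw [← q_nonneg_iff]
      refine (q_wit p i j).2 ?_
      rintro rfl
      exact hi rfl
    rw [h] at h1
    have h2 : 0 ≤ q p j (wit j) := (mem_KK p _).1 h1 j
    have h3 := (q_wit p j j).1 rfl
    linarith

/-! ### Dihedral angles -/

lemma inner3 (x y : E3) : inner ℝ x y = x 0 * y 0 + x 1 * y 1 + x 2 * y 2 := by
  rw [PiLp.inner_apply, Fin.sum_univ_three]
  simp [mul_comm]

lemma inner_centres {x c c' : E3} (h : dist x c = 1) (h' : dist x c' = 1) :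
    inner ℝ (x - c) (x - c') = 1 - dist c c' ^ 2 / 2 := by
  have e1 : dist x c ^ 2 = 1 := by rw [h]; norm_num
  have e2 : dist x c' ^ 2 = 1 := by rw [h']; norm_num
  rw [dist_sq] at e1 e2
  rw [dist_sq, inner3]
  simp only [PiLp.sub_apply]
  linarith

/-- The cosine of the angle of the outer normals. -/
noncomputable def dA (A : Finset (Fin 5)) : ℝ := if A ⊆ Vf 0 then 1 / 2 else 12 / 25

lemma adj : ∀ A : Finset (Fin 5), cl A = A → A.card = 2 → ∀ i i', A ⊆ Vf i → A ⊆ Vf i' → i ≠ i' →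
    (A ⊆ Vf 0 ∧ (i = 0 ∧ i' ≠ 0 ∨ i ≠ 0 ∧ i' = 0)) ∨
    (¬ A ⊆ Vf 0 ∧ (((i = 1 ∨ i = 3) ∧ (i' = 2 ∨ i' = 4)) ∨
      ((i = 2 ∨ i = 4) ∧ (i' = 1 ∨ i' = 3)))) := by
  decide

lemma ctr_dist_zero (p : Par) (i : Fin 5) (hi : i ≠ 0) : dist (ctr p 0) (ctr p i) ^ 2 = 1 := by
  have h1 := p.hah
  have h2 := p.hbk
  rw [dist_sq]
  fin_cases i <;> simp [ctr] at hi ⊢ <;> linarith

lemma ctr_dist_lat (p : Par) (i j : Fin 5) (hi : i = 1 ∨ i = 3) (hj : j = 2 ∨ j = 4) :
    dist (ctr p i) (ctr p j) ^ 2 = 26 / 25 := by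
  have h1 := p.hah
  have h2 := p.hbk
  have h3 := p.hhk
  rw [dist_sq]
  rcases hi with rfl | rfl <;> rcases hj with rfl | rfl <;> simp [ctr] <;> nlinarith

lemma dist_val (p : Par) (A : Finset (Fin 5)) (hA : cl A = A) (hc : A.card = 2) (i i' : Fin 5)
    (hi : A ⊆ Vf i) (hi' : A ⊆ Vf i') (hne : i ≠ i') :
    1 - dist (ctr p i) (ctr p i') ^ 2 / 2 = dA A := by
  rcases adj A hA hc i i' hi hi' hne with ⟨h0, ⟨rfl, h⟩ | ⟨h, rfl⟩⟩ | ⟨h0, ⟨h, h'⟩ | ⟨h, h'⟩⟩
  · rw [ctr_dist_zero p i' h, dA, if_pos h0]; norm_num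
  · rw [dist_comm, ctr_dist_zero p i h, dA, if_pos h0]; norm_num
  · rw [ctr_dist_lat p i i' h h', dA, if_neg h0]; norm_num
  · rw [dist_comm, ctr_dist_lat p i' i h' h, dA, if_neg h0]; norm_num

lemma exists_pair : ∀ A : Finset (Fin 5), cl A = A → A.card = 2 →
    ∃ i i', A ⊆ Vf i ∧ A ⊆ Vf i' ∧ i ≠ i' := by
  decide

lemma dihedral_iff (p : Par) (A : Finset (Fin 5)) (hA : cl A = A) (hc : A.card = 2) (t : ℝ) :
    HasDihedralAngle (CC p) (RR p A) t ↔ t = Real.pi - Real.arccos (dA A) := by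
  have key : ∀ x ∈ EE p A, ∀ i i', A ⊆ Vf i → A ⊆ Vf i' → i ≠ i' →
      InnerProductGeometry.angle (x - ctr p i) (x - ctr p i') = Real.arccos (dA A) := by
    intro x hx i i' hi hi' hne
    have h1 := (q_zero_iff p i x).1 ((hx.2 i).2 hi)
    have h2 := (q_zero_iff p i' x).1 ((hx.2 i').2 hi')
    unfold InnerProductGeometry.angle
    rw [inner_centres h1 h2, ← dist_eq_norm, ← dist_eq_norm, h1, h2,
      dist_val p A hA hc i i' hi hi' hne]
    norm_num
  constructor
  · rintro ⟨x, hx, he, c, hcx, c', hcx', hne, rfl⟩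
    obtain ⟨B, hB, hBc, hxB⟩ := edgePoint_stratum hx
    rw [component hB hBc hxB, (arc_all p B hB hBc).clos] at he
    have hAB : A = B := RR_inj p hA hB he
    subst hAB
    obtain ⟨i, rfl⟩ : c ∈ Set.range (ctr p) := hcx.1
    obtain ⟨i', rfl⟩ : c' ∈ Set.range (ctr p) := hcx'.1
    rw [mem_spheresAt, hxB.2] at hcx hcx'
    rw [key x hxB i i' hcx hcx' (fun h => hne (by rw [h]))]
  · rintro rfl
    obtain ⟨x, hx⟩ := (arc_all p A hA hc).nonempty
    obtain ⟨i, i', hi, hi', hne⟩ := exists_pair A hA hc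
    refine ⟨x, EE_sub_edgePoints hA hc hx, ?_, ctr p i, ?_, ctr p i', ?_, ctr_ne p i i' hne, ?_⟩
    · rw [component hA hc hx, (arc_all p A hA hc).clos]
    · rw [mem_spheresAt]; exact (hx.2 i).2 hi
    · rw [mem_spheresAt]; exact (hx.2 i').2 hi'
    · rw [key x hx i i' hi hi' hne]

/-! ### Tangent directions at the apex -/

/-- Direction of the lateral curve. -/
noncomputable def MM (p : Par) (e d s : ℝ) : E3 := !₂[-e * mX p s, -d * mY p s, 1]

lemma MM_ne (p : Par) (e d s : ℝ) : MM p e d s ≠ 0 := by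
  intro h
  have : MM p e d s 2 = (0 : E3) 2 := by rw [h]
  simp [MM] at this

lemma MM_cont (p : Par) (e d : ℝ) : Continuous (MM p e d) := by
  have h2 := mX_cont p
  have h3 := mY_cont p
  rw [← continuousOn_univ]
  unfold MM
  apply cont3
  · exact (continuous_const.mul h2).continuousOn
  · exact (continuous_const.mul h3).continuousOn
  · exact continuousOn_const

lemma apex_closure : ∀ A : Finset (Fin 5), cl A = A → A.card = 2 → ∃ i, i ≠ 0 ∧ ¬ A ⊆ Vf i := by
  decide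

lemma apex_neBot (p : Par) (A : Finset (Fin 5)) (hA : cl A = A) (hc : A.card = 2) (h0 : 0 ∈ A) :
    (0 : E3) ∈ closure (RR p A \ {0}) := by
  have h1 : (0 : E3) ∈ RR p A := by
    rw [← vx_zero p, vx_mem_RR, hA]; exact h0
  rw [← (arc_all p A hA hc).clos] at h1
  refine closure_mono ?_ h1
  intro x hx
  refine ⟨EE_sub_RR p A hx, ?_⟩
  rintro rfl
  obtain ⟨i, hi, hi'⟩ := apex_closure A hA hc
  exact hi' ((hx.2 i).1 ((zs_zero p i).2 hi))

lemma tangent_aux (p : Par) (A : Finset (Fin 5)) (e d : ℝ) (he : Sg e) (hd : Sg d)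
    (i j : Fin 5)
    (hi : ∀ x, q p i x = 2 * (e * p.a * x 0 + p.h * x 2) - N x)
    (hj : ∀ x, q p j x = 2 * (d * p.b * x 1 + p.k * x 2) - N x)
    (hi0 : A ⊆ Vf i) (hj0 : A ⊆ Vf j) :
    Tendsto (fun x : E3 => ‖x - 0‖⁻¹ • (x - 0)) (𝓝[RR p A \ {0}] 0)
      (𝓝 (‖MM p e d 0‖⁻¹ • MM p e d 0)) := by
  have g := rr_good p
  -- the parameter of a point
  have hpar : ∀ x ∈ RR p A \ {0}, 0 ≤ N x / x 2 ∧ N x / x 2 ≤ √(N x * DD p 0) ∧
      ‖x‖⁻¹ • x = ‖MM p e d (N x / x 2)‖⁻¹ • MM p e d (N x / x 2) := by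
    rintro x ⟨⟨hx, hx2⟩, hx0⟩
    have e1 := hx2 i hi0
    have e2 := hx2 j hj0
    rw [hi] at e1
    rw [hj] at e2
    unfold N at e1 e2
    obtain ⟨s, h1, h2, h3, h4, h5, h6, -⟩ :=
      (inK hx).lateral g he hd (by linarith) (by linarith)
    have hD := DD_pos p s
    have hs : s ≠ 0 := by
      rintro rfl
      apply hx0
      rw [Set.mem_singleton_iff]
      apply ext3
      · rw [h3]; simp
      · rw [h4]; simp
      · rw [h5]; simp
    have hs0 : 0 < s := lt_of_le_of_ne h1 (Ne.symm hs)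
    have hN : N x = s ^ 2 / DD p s := h6
    have hu : N x / x 2 = s := by
      rw [hN, h5]; field_simp
    rw [hu]
    refine ⟨h1, ?_, ?_⟩
    · apply Real.le_sqrt_of_sq_le
      have hD0 : DD p s ≤ DD p 0 :=
        DD_anti p h1 (h2.trans g.lt_h.le) (h2.trans g.lt_k.le)
      have : s ^ 2 = N x * DD p s := by rw [hN]; field_simp
      rw [this]
      have hN0 : 0 ≤ N x := by rw [hN]; positivity
      exact mul_le_mul_of_nonneg_left hD0 hN0
    · have hx' : x = (s / DD p s) • MM p e d s := by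
        apply ext3
        · rw [h3]; simp [MM]; ring
        · rw [h4]; simp [MM]; ring
        · rw [h5]; simp [MM]
      have hpos : 0 < s / DD p s := by positivity
      rw [hx', norm_smul, Real.norm_of_nonneg hpos.le, smul_smul, mul_inv, mul_right_comm,
        inv_mul_cancel₀ hpos.ne', one_mul]
  -- the parameter tends to zero
  have hu : Tendsto (fun x : E3 => N x / x 2) (𝓝[RR p A \ {0}] 0) (𝓝 0) := by
    have hs : Tendsto (fun x : E3 => √(N x * DD p 0)) (𝓝[RR p A \ {0}] 0) (𝓝 0) := by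
      have hc : Continuous fun x : E3 => √(N x * DD p 0) := by
        unfold N; fun_prop
      have : √(N (0 : E3) * DD p 0) = 0 := by simp [N]
      have h1 := (hc.tendsto (0 : E3)).mono_left
        (nhdsWithin_le_nhds (s := RR p A \ {0}))
      rw [this] at h1
      exact h1
    refine tendsto_of_tendsto_of_tendsto_of_le_of_le' tendsto_const_nhds hs ?_ ?_
    · filter_upwards [self_mem_nhdsWithin] with x hx
      exact (hpar x hx).1
    · filter_upwards [self_mem_nhdsWithin] with x hx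
      exact (hpar x hx).2.1
  have hF : ContinuousAt (fun s : ℝ => ‖MM p e d s‖⁻¹ • MM p e d s) 0 := by
    have h1 := (MM_cont p e d).continuousAt (x := (0 : ℝ))
    exact (h1.norm.inv₀ (norm_ne_zero_iff.2 (MM_ne p e d 0))).smul h1
  have hcomp := hF.tendsto.comp hu
  refine hcomp.congr' ?_
  filter_upwards [self_mem_nhdsWithin] with x hx
  rw [sub_zero]
  exact (hpar x hx).2.2.symm

/-- Signs of the lateral edge with vertex labels `{0, j}`. -/
noncomputable def es : Fin 5 → ℝ := ![0, 1, -1, -1, 1]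
/-- Signs of the lateral edge with vertex labels `{0, j}`. -/
noncomputable def ds : Fin 5 → ℝ := ![0, 1, 1, -1, -1]

lemma tangent_iff (p : Par) (j : Fin 5) (hj : j ≠ 0) (t : E3) :
    IsTangentDirection (RR p {0, j}) 0 t ↔
      t = ‖MM p (es j) (ds j) 0‖⁻¹ • MM p (es j) (ds j) 0 := by
  have hA : ∀ j : Fin 5, j ≠ 0 → cl {0, j} = {0, j} := by decide
  have hc : ∀ j : Fin 5, j ≠ 0 → ({0, j} : Finset (Fin 5)).card = 2 := by decide
  have s1 : Sg 1 := Or.inl rfl
  have s2 : Sg (-1) := Or.inr rfl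
  have hcl := apex_neBot p {0, j} (hA j hj) (hc j hj) (Finset.mem_insert_self _ _)
  have ht : Tendsto (fun x : E3 => ‖x - 0‖⁻¹ • (x - 0)) (𝓝[RR p {0, j} \ {0}] 0)
      (𝓝 (‖MM p (es j) (ds j) 0‖⁻¹ • MM p (es j) (ds j) 0)) := by
    fin_cases j
    · exact absurd rfl hj
    · exact tangent_aux p _ 1 1 s1 s1 1 2 (fun x => by rw [q_one]; ring)
        (fun x => by rw [q_two]; ring) (by decide) (by decide)
    · exact tangent_aux p _ (-1) 1 s2 s1 3 2 (fun x => by rw [q_three]; ring)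
        (fun x => by rw [q_two]; ring) (by decide) (by decide)
    · exact tangent_aux p _ (-1) (-1) s2 s2 3 4 (fun x => by rw [q_three]; ring)
        (fun x => by rw [q_four]; ring) (by decide) (by decide)
    · exact tangent_aux p _ 1 (-1) s1 s2 1 4 (fun x => by rw [q_one]; ring)
        (fun x => by rw [q_four]; ring) (by decide) (by decide)
  constructor
  · rintro ⟨h1, h2⟩
    have : NeBot (𝓝[RR p {0, j} \ {0}] (0 : E3)) := mem_closure_iff_nhdsWithin_neBot.1 h1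
    exact tendsto_nhds_unique h2 ht
  · rintro rfl
    exact ⟨hcl, ht⟩

/-! ### Face angles at the apex -/

/-- Squares of the slopes. -/
noncomputable def HH (p : Par) : ℝ := mX p 0 ^ 2
noncomputable def KK' (p : Par) : ℝ := mY p 0 ^ 2

lemma es_sq (j : Fin 5) (hj : j ≠ 0) : es j * es j = 1 := by
  fin_cases j <;> simp [es] at hj ⊢

lemma ds_sq (j : Fin 5) (hj : j ≠ 0) : ds j * ds j = 1 := by
  fin_cases j <;> simp [ds] at hj ⊢

lemma MM_norm (p : Par) (j : Fin 5) (hj : j ≠ 0) :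
    ‖MM p (es j) (ds j) 0‖ ^ 2 = HH p + KK' p + 1 := by
  rw [← real_inner_self_eq_norm_sq, inner3]
  have h1 := es_sq j hj
  have h2 := ds_sq j hj
  simp only [MM, HH, KK']
  simp
  linear_combination mX p 0 ^ 2 * h1 + mY p 0 ^ 2 * h2

lemma MM_angle (p : Par) (j j' : Fin 5) (hj : j ≠ 0) (hj' : j' ≠ 0) :
    InnerProductGeometry.angle (‖MM p (es j) (ds j) 0‖⁻¹ • MM p (es j) (ds j) 0)
      (‖MM p (es j') (ds j') 0‖⁻¹ • MM p (es j') (ds j') 0) =
    Real.arccos ((es j * es j' * HH p + ds j * ds j' * KK' p + 1) / (HH p + KK' p + 1)) := by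
  have n1 : 0 < ‖MM p (es j) (ds j) 0‖ := norm_pos_iff.2 (MM_ne _ _ _ _)
  have n2 : 0 < ‖MM p (es j') (ds j') 0‖ := norm_pos_iff.2 (MM_ne _ _ _ _)
  rw [InnerProductGeometry.angle_smul_left_of_pos _ _ (inv_pos.2 n1),
    InnerProductGeometry.angle_smul_right_of_pos _ _ (inv_pos.2 n2)]
  unfold InnerProductGeometry.angle
  have h1 := MM_norm p j hj
  have h2 := MM_norm p j' hj'
  have h3 : ‖MM p (es j) (ds j) 0‖ = ‖MM p (es j') (ds j') 0‖ := by
    rw [← sq_eq_sq₀ n1.le n2.le, h1, h2]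
  rw [h3, ← pow_two, h2, inner3]
  congr 2
  simp only [MM, HH, KK']
  simp
  ring

lemma lat_edge : ∀ A : Finset (Fin 5), cl A = A → A.card = 2 → 0 ∈ A → ∀ i, i ≠ 0 → A ⊆ Vf i →
    ∃ j, j ≠ 0 ∧ j ∈ Vf i ∧ A = {0, j} := by
  decide

lemma faceAngle_aux (p : Par) (i : Fin 5) (hi : i ≠ 0) (θ : ℝ) :
    HasFaceAngle (CC p) 0 (RR p (Vf i)) θ ↔ ∃ j j', j ≠ 0 ∧ j' ≠ 0 ∧ j ≠ j' ∧ j ∈ Vf i ∧
      j' ∈ Vf i ∧
      θ = Real.arccos ((es j * es j' * HH p + ds j * ds j' * KK' p + 1) / (HH p + KK' p + 1)) := by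
  have hA : ∀ j : Fin 5, j ≠ 0 → cl {0, j} = {0, j} := by decide
  have hc : ∀ j : Fin 5, j ≠ 0 → ({0, j} : Finset (Fin 5)).card = 2 := by decide
  have h0 : ∀ j : Fin 5, (0 : E3) ∈ RR p {0, j} ↔ (0 : Fin 5) ∈ cl {0, j} := by
    intro j; rw [← vx_zero p, vx_mem_RR]
  have hsub : ∀ i j : Fin 5, i ≠ 0 → j ≠ 0 → j ∈ Vf i → ({0, j} : Finset (Fin 5)) ⊆ Vf i := by
    decide
  constructor
  · rintro ⟨-, -, -, e, e', t, t', he, he', hne, hes, hes', hv, hv', ht, ht', rfl⟩
    obtain ⟨A, hA1, hA2, rfl⟩ := (isEdge_iff p e).1 he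
    obtain ⟨B, hB1, hB2, rfl⟩ := (isEdge_iff p e').1 he'
    rw [RR_subset p (closed_vf i)] at hes hes'
    rw [← vx_zero p, vx_mem_RR, hA1] at hv
    rw [← vx_zero p, vx_mem_RR, hB1] at hv'
    obtain ⟨j, hj, hji, rfl⟩ := lat_edge A hA1 hA2 hv i hi hes
    obtain ⟨j', hj', hji', rfl⟩ := lat_edge B hB1 hB2 hv' i hi hes'
    rw [tangent_iff p j hj] at ht
    rw [tangent_iff p j' hj'] at ht'
    subst ht ht'
    refine ⟨j, j', hj, hj', ?_, hji, hji', MM_angle p j j' hj hj'⟩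
    rintro rfl
    exact hne rfl
  · rintro ⟨j, j', hj, hj', hne, hji, hji', rfl⟩
    refine ⟨(isVertex_iff' p 0).2 ⟨0, (vx_zero p).symm⟩, (isFace_iff p _).2 ⟨i, RR_vf p i⟩, ?_,
      RR p {0, j}, RR p {0, j'}, _, _,
      (isEdge_iff p _).2 ⟨_, hA j hj, hc j hj, rfl⟩,
      (isEdge_iff p _).2 ⟨_, hA j' hj', hc j' hj', rfl⟩, ?_,
      (RR_subset p (closed_vf i)).2 (hsub i j hi hj hji),
      (RR_subset p (closed_vf i)).2 (hsub i j' hi hj' hji'), ?_, ?_,
      (tangent_iff p j hj _).2 rfl, (tangent_iff p j' hj' _).2 rfl,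
      (MM_angle p j j' hj hj').symm⟩
    · rw [← vx_zero p, vx_mem_RR, closed_vf]
      have : ∀ i : Fin 5, i ≠ 0 → 0 ∈ Vf i := by decide
      exact this i hi
    · intro h
      have h2 := RR_inj p (hA j hj) (hA j' hj') h
      have : j ∈ ({0, j'} : Finset (Fin 5)) := by rw [← h2]; simp
      simp only [Finset.mem_insert, Finset.mem_singleton] at this
      rcases this with h | h
      · exact hj h
      · exact hne h
    · rw [h0, hA j hj]; simp
    · rw [h0, hA j' hj']; simp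

lemma pairs_X : ∀ i : Fin 5, (i = 1 ∨ i = 3) → ∀ j j' : Fin 5, j ≠ 0 → j' ≠ 0 → j ≠ j' →
    j ∈ Vf i → j' ∈ Vf i → (j = 1 ∧ j' = 4) ∨ (j = 4 ∧ j' = 1) ∨ (j = 2 ∧ j' = 3) ∨
      (j = 3 ∧ j' = 2) := by
  decide

lemma pairs_Y : ∀ i : Fin 5, (i = 2 ∨ i = 4) → ∀ j j' : Fin 5, j ≠ 0 → j' ≠ 0 → j ≠ j' →
    j ∈ Vf i → j' ∈ Vf i → (j = 1 ∧ j' = 2) ∨ (j = 2 ∧ j' = 1) ∨ (j = 4 ∧ j' = 3) ∨
      (j = 3 ∧ j' = 4) := by
  decide

lemma pairs_ex : ∀ i : Fin 5, i ≠ 0 → ∃ j j' : Fin 5, j ≠ 0 ∧ j' ≠ 0 ∧ j ≠ j' ∧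
    j ∈ Vf i ∧ j' ∈ Vf i := by
  decide

lemma faceAngle_X (p : Par) (i : Fin 5) (hi : i = 1 ∨ i = 3) (θ : ℝ) :
    HasFaceAngle (CC p) 0 (RR p (Vf i)) θ ↔
      θ = Real.arccos ((HH p - KK' p + 1) / (HH p + KK' p + 1)) := by
  have hi0 : i ≠ 0 := by rcases hi with rfl | rfl <;> decide
  have key : ∀ j j' : Fin 5, j ≠ 0 → j' ≠ 0 → j ≠ j' → j ∈ Vf i → j' ∈ Vf i →
      es j * es j' * HH p + ds j * ds j' * KK' p + 1 = HH p - KK' p + 1 := by
    intro j j' h1 h2 h3 h4 h5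
    rcases pairs_X i hi j j' h1 h2 h3 h4 h5 with ⟨rfl, rfl⟩ | ⟨rfl, rfl⟩ | ⟨rfl, rfl⟩ | ⟨rfl, rfl⟩ <;>
      simp [es, ds] <;> ring
  rw [faceAngle_aux p i hi0]
  constructor
  · rintro ⟨j, j', h1, h2, h3, h4, h5, rfl⟩
    rw [key j j' h1 h2 h3 h4 h5]
  · rintro rfl
    obtain ⟨j, j', h1, h2, h3, h4, h5⟩ := pairs_ex i hi0
    exact ⟨j, j', h1, h2, h3, h4, h5, by rw [key j j' h1 h2 h3 h4 h5]⟩

lemma faceAngle_Y (p : Par) (i : Fin 5) (hi : i = 2 ∨ i = 4) (θ : ℝ) :
    HasFaceAngle (CC p) 0 (RR p (Vf i)) θ ↔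
      θ = Real.arccos ((KK' p - HH p + 1) / (HH p + KK' p + 1)) := by
  have hi0 : i ≠ 0 := by rcases hi with rfl | rfl <;> decide
  have key : ∀ j j' : Fin 5, j ≠ 0 → j' ≠ 0 → j ≠ j' → j ∈ Vf i → j' ∈ Vf i →
      es j * es j' * HH p + ds j * ds j' * KK' p + 1 = KK' p - HH p + 1 := by
    intro j j' h1 h2 h3 h4 h5
    rcases pairs_Y i hi j j' h1 h2 h3 h4 h5 with ⟨rfl, rfl⟩ | ⟨rfl, rfl⟩ | ⟨rfl, rfl⟩ | ⟨rfl, rfl⟩ <;>
      simp [es, ds] <;> ring
  rw [faceAngle_aux p i hi0]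
  constructor
  · rintro ⟨j, j', h1, h2, h3, h4, h5, rfl⟩
    rw [key j j' h1 h2 h3 h4 h5]
  · rintro rfl
    obtain ⟨j, j', h1, h2, h3, h4, h5⟩ := pairs_ex i hi0
    exact ⟨j, j', h1, h2, h3, h4, h5, by rw [key j j' h1 h2 h3 h4 h5]⟩

/-! ### The two examples -/

/-- The rhombic example. -/
noncomputable def p1 : Par where
  a := 3 / 5
  h := 4 / 5
  b := 4 / 5
  k := 3 / 5
  ha := by norm_num
  hb := by norm_num
  hah := by norm_num
  hbk := by norm_num
  hhk := by norm_num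
  hh := by norm_num
  hk := by norm_num

/-- The square example. -/
noncomputable def p2 : Par where
  a := √13 / 5
  h := 2 * √3 / 5
  b := √13 / 5
  k := 2 * √3 / 5
  ha := by positivity
  hb := by positivity
  hah := by
    have h1 : √13 ^ 2 = (13 : ℝ) := Real.sq_sqrt (by norm_num)
    have h2 : √3 ^ 2 = (3 : ℝ) := Real.sq_sqrt (by norm_num)
    nlinarith
  hbk := by
    have h1 : √13 ^ 2 = (13 : ℝ) := Real.sq_sqrt (by norm_num)
    have h2 : √3 ^ 2 = (3 : ℝ) := Real.sq_sqrt (by norm_num)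
    nlinarith
  hhk := by
    have h2 : √3 ^ 2 = (3 : ℝ) := Real.sq_sqrt (by norm_num)
    nlinarith
  hh := by
    have : (3 / 2 : ℝ) ≤ √3 := Real.le_sqrt_of_sq_le (by norm_num)
    linarith
  hk := by
    have : (3 / 2 : ℝ) ≤ √3 := Real.le_sqrt_of_sq_le (by norm_num)
    linarith

lemma HH1 : HH p1 = 16 / 9 := by
  unfold HH mX p1; norm_num
lemma KK1 : KK' p1 = 9 / 16 := by
  unfold KK' mY p1; norm_num
lemma HH2 : HH p2 = 12 / 13 := by
  have h1 : √13 ^ 2 = (13 : ℝ) := Real.sq_sqrt (by norm_num)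
  have h2 : √3 ^ 2 = (3 : ℝ) := Real.sq_sqrt (by norm_num)
  unfold HH mX p2
  simp only
  rw [div_pow, show (2 * (2 * √3 / 5) - 0) ^ 2 = 16 / 25 * √3 ^ 2 by ring,
    show (2 * (√13 / 5)) ^ 2 = 4 / 25 * √13 ^ 2 by ring, h1, h2]
  norm_num
lemma KK2 : KK' p2 = 12 / 13 := HH2

/-- Number of closed sets above `A`. -/
def up (A : Finset (Fin 5)) : ℕ :=
  (Finset.univ.filter (fun B : Finset (Fin 5) => cl B = B ∧ A ⊆ B)).card

set_option maxRecDepth 100000 in
lemma up_apex : ∀ A : Finset (Fin 5), cl A = A → up A = 10 → A = {0} := by decide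

set_option maxRecDepth 100000 in
lemma up_face : ∀ A : Finset (Fin 5), cl A = A → up A = 2 → 0 ∈ A → ∃ i, i ≠ 0 ∧ A = Vf i := by
  decide

lemma up_apex' : up {0} = 10 := by decide
lemma up_face' : up (Vf 1) = 2 := by decide

lemma up_iso (χ : LL ≃o LL) (A : LL) : up (χ A).1 = up A.1 := by
  unfold up
  symm
  refine Finset.card_bij (fun B hB => (χ ⟨B, by simp at hB; exact hB.1⟩).1) ?_ ?_ ?_
  · intro B hB
    simp only [Finset.mem_filter, Finset.mem_univ, true_and] at hB ⊢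
    refine ⟨(χ ⟨B, hB.1⟩).2, ?_⟩
    have : A ≤ ⟨B, hB.1⟩ := hB.2
    exact χ.monotone this
  · intro B hB B' hB' h
    have := χ.injective (Subtype.ext h)
    exact congrArg Subtype.val this
  · intro B hB
    simp only [Finset.mem_filter, Finset.mem_univ, true_and] at hB
    refine ⟨(χ.symm ⟨B, hB.1⟩).1, ?_, ?_⟩
    · simp only [Finset.mem_filter, Finset.mem_univ, true_and]
      refine ⟨(χ.symm ⟨B, hB.1⟩).2, ?_⟩
      have : χ A ≤ ⟨B, hB.1⟩ := hB.2
      have := χ.symm.monotone this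
      rw [OrderIso.symm_apply_apply] at this
      exact this
    · simp

/-- **Main theorem.** -/
theorem result : ∃ C D : Set E3,
    IsBallPolyhedron C ∧ IsBallPolyhedron D ∧ IsStandard C ∧ IsStandard D ∧
    (∃ φ : faceFamily C ≃o faceFamily D, ∀ e : faceFamily C, IsEdge C e →
      IsEdge D (φ e) ∧ ∃ θ : ℝ, (∀ t, HasDihedralAngle C e t ↔ t = θ) ∧
        ∀ t, HasDihedralAngle D (φ e) t ↔ t = θ) ∧
    ∀ ψ : faceFamily C ≃o faceFamily D, ∃ (V F : faceFamily C) (v w : E3) (θ θ' : ℝ),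
      (V : Set E3) = {v} ∧ (ψ V : Set E3) = {w} ∧
      (∀ t, HasFaceAngle C v F t ↔ t = θ) ∧ (∀ t, HasFaceAngle D w (ψ F) t ↔ t = θ') ∧
      θ ≠ θ' := by
  refine ⟨CC p1, CC p2, ballPolyhedron p1, ballPolyhedron p2, standard p1, standard p2, ?_, ?_⟩
  · refine ⟨(lab p1).symm.trans (lab p2), ?_⟩
    intro e he
    obtain ⟨A, hA, hc, heA⟩ := (isEdge_iff p1 _).1 he
    have h1 : e = lab p1 ⟨A, hA⟩ := Subtype.ext heA
    have h2 : (((lab p1).symm.trans (lab p2)) e : Set E3) = RR p2 A := by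
      rw [h1, OrderIso.trans_apply, OrderIso.symm_apply_apply, lab_val]
    rw [h2]
    refine ⟨(isEdge_iff p2 _).2 ⟨A, hA, hc, rfl⟩, Real.pi - Real.arccos (dA A), ?_, ?_⟩
    · intro t
      rw [heA]
      exact dihedral_iff p1 A hA hc t
    · intro t
      exact dihedral_iff p2 A hA hc t
  · intro ψ
    obtain ⟨χ, hχ⟩ : ∃ χ : LL ≃o LL, χ = (lab p1).trans (ψ.trans (lab p2).symm) := ⟨_, rfl⟩
    have hψ : ∀ A : LL, ψ (lab p1 A) = lab p2 (χ A) := by
      intro A
      rw [hχ]; simp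
    have a1 : (χ ⟨{0}, closed_single 0⟩).1 = {0} := by
      apply up_apex _ (χ _).2
      rw [up_iso]; exact up_apex'
    have a2 : ∃ i, i ≠ 0 ∧ (χ ⟨Vf 1, closed_vf 1⟩).1 = Vf i := by
      apply up_face _ (χ _).2
      · rw [up_iso]; exact up_face'
      · have : (⟨{0}, closed_single 0⟩ : LL) ≤ ⟨Vf 1, closed_vf 1⟩ := by
          change ({0} : Finset (Fin 5)) ⊆ Vf 1
          decide
        have h2 : (χ ⟨{0}, closed_single 0⟩).1 ⊆ (χ ⟨Vf 1, closed_vf 1⟩).1 := χ.monotone this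
        rw [a1] at h2
        exact h2 (Finset.mem_singleton_self 0)
    obtain ⟨i, hi0, hi⟩ := a2
    refine ⟨lab p1 ⟨{0}, closed_single 0⟩, lab p1 ⟨Vf 1, closed_vf 1⟩, 0, 0,
      Real.arccos (319 / 481), Real.arccos (13 / 37), ?_, ?_, ?_, ?_, ?_⟩
    · rw [lab_val, RR_single, vx_zero]
    · rw [hψ, lab_val, a1, RR_single, vx_zero]
    · intro t
      rw [lab_val]
      have := faceAngle_X p1 1 (Or.inl rfl) t
      rw [HH1, KK1] at this
      rw [this]
      norm_num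
    · intro t
      rw [hψ, lab_val, hi]
      have h4 : ∀ i : Fin 5, i ≠ 0 → (i = 1 ∨ i = 3) ∨ (i = 2 ∨ i = 4) := by decide
      rcases h4 i hi0 with h | h
      · have := faceAngle_X p2 i h t
        rw [HH2, KK2] at this
        rw [this]
        norm_num
      · have := faceAngle_Y p2 i h t
        rw [HH2, KK2] at this
        rw [this]
        norm_num
    · intro h
      have := congrArg Real.cos h
      rw [Real.cos_arccos (by norm_num) (by norm_num), Real.cos_arccos (by norm_num) (by norm_num)]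
        at this
      norm_num at this

end Pool.Agent.Results.MP_07b410_co.DihedralNotEnough
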